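import Mathlib

/-!
# A growth criterion for the transcendence of a power series

A power series with non-negative integral coefficients which converges for `|t| < 1` and whose
values at `1 - 1 / (4 L)` grow faster than every power of `L` is not algebraic over `ℚ(t)`.
-/

set_option autoImplicit false

open scoped Classical

namespace Pool.Agent.Y146.PR.Trans

open Polynomial

/-- Absolute convergence at `r`. -/
def Conv (r : ℝ) (f : PowerSeries ℚ) : Prop :=
  Summable (fun n => ‖((PowerSeries.coeff n f : ℚ) : ℝ) * r ^ n‖)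

/-- The value at `r`. -/
noncomputable def ev (r : ℝ) (f : PowerSeries ℚ) : ℝ :=
  ∑' n, ((PowerSeries.coeff n f : ℚ) : ℝ) * r ^ n

theorem conv_add {r : ℝ} {f g : PowerSeries ℚ} (hf : Conv r f) (hg : Conv r g) :
    Conv r (f + g) := by
  refine Summable.of_nonneg_of_le (fun _ => norm_nonneg _) (fun n => ?_) (hf.add hg)
  rw [map_add, Rat.cast_add, add_mul]
  exact norm_add_le _ _

theorem ev_add {r : ℝ} {f g : PowerSeries ℚ} (hf : Conv r f) (hg : Conv r g) :
    ev r (f + g) = ev r f + ev r g := by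
  rw [ev, ev, ev, ← hf.of_norm.tsum_add hg.of_norm]
  refine tsum_congr fun n => ?_
  rw [map_add, Rat.cast_add, add_mul]

theorem mul_term (r : ℝ) (f g : PowerSeries ℚ) (n : ℕ) :
    ((PowerSeries.coeff n (f * g) : ℚ) : ℝ) * r ^ n =
      ∑ kl ∈ Finset.HasAntidiagonal.antidiagonal n,
        (((PowerSeries.coeff kl.1 f : ℚ) : ℝ) * r ^ kl.1) *
          (((PowerSeries.coeff kl.2 g : ℚ) : ℝ) * r ^ kl.2) := by
  rw [PowerSeries.coeff_mul, Rat.cast_sum, Finset.sum_mul]
  refine Finset.sum_congr rfl fun kl hkl => ?_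
  rw [Finset.HasAntidiagonal.mem_antidiagonal] at hkl
  rw [Rat.cast_mul, ← hkl, pow_add]
  ring

theorem conv_mul {r : ℝ} {f g : PowerSeries ℚ} (hf : Conv r f) (hg : Conv r g) :
    Conv r (f * g) := by
  have := summable_norm_sum_mul_antidiagonal_of_summable_norm hf hg
  rw [Conv]
  refine this.congr fun n => ?_
  rw [mul_term]

theorem ev_mul {r : ℝ} {f g : PowerSeries ℚ} (hf : Conv r f) (hg : Conv r g) :
    ev r (f * g) = ev r f * ev r g := by
  rw [ev, ev, ev, tsum_mul_tsum_eq_tsum_sum_antidiagonal_of_summable_norm hf hg]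
  exact tsum_congr fun n => mul_term r f g n

theorem conv_poly (r : ℝ) (p : ℚ[X]) : Conv r (p : PowerSeries ℚ) := by
  refine summable_of_ne_finset_zero (s := p.support) fun n hn => ?_
  rw [Polynomial.coeff_coe, Polynomial.notMem_support_iff.1 hn]
  simp

theorem ev_poly (r : ℝ) (p : ℚ[X]) : ev r (p : PowerSeries ℚ) = Polynomial.aeval r p := by
  rw [ev, tsum_eq_sum (s := p.support), Polynomial.aeval_eq_sum_range']
  rotate_left
  · exact Nat.lt_succ_self _
  · intro n hn
    rw [Polynomial.coeff_coe, Polynomial.notMem_support_iff.1 hn]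
    simp
  rw [← Polynomial.sum_over_range' p (f := fun i a => (a : ℚ) • r ^ i) (by simp) _
    (Nat.lt_succ_self _), Polynomial.sum]
  refine Finset.sum_congr rfl fun i _ => ?_
  rw [Polynomial.coeff_coe]
  rw [Rat.smul_def]

/-- Evaluation of a polynomial in a convergent power series. -/
theorem ev_aeval {r : ℝ} {H : PowerSeries ℚ} (hH : Conv r H) (F : ℚ[X][X]) :
    Conv r (Polynomial.aeval H F) ∧
      ev r (Polynomial.aeval H F) =
        F.sum (fun i a => Polynomial.aeval r a * ev r H ^ i) := by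
  have hpow : ∀ i : ℕ, Conv r (H ^ i) ∧ ev r (H ^ i) = ev r H ^ i := by
    intro i
    induction i with
    | zero =>
      have h1 := conv_poly r 1
      have h2 := ev_poly r 1
      simp only [Polynomial.coe_one, map_one] at h1 h2
      rw [pow_zero, pow_zero]
      exact ⟨h1, h2⟩
    | succ i ih =>
      rw [pow_succ, pow_succ]
      exact ⟨conv_mul ih.1 hH, by rw [ev_mul ih.1 hH, ih.2]⟩
  have hmon : ∀ (i : ℕ) (a : ℚ[X]), Polynomial.aeval H (Polynomial.monomial i a) =
      (a : PowerSeries ℚ) * H ^ i := by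
    intro i a
    rw [Polynomial.aeval_monomial, PowerSeries.algebraMap_apply']
    simp
  induction F using Polynomial.induction_on' with
  | add p q hp hq =>
    refine ⟨by rw [map_add]; exact conv_add hp.1 hq.1, ?_⟩
    rw [map_add, ev_add hp.1 hq.1, hp.2, hq.2, Polynomial.sum_add_index]
    · intro i; simp
    · intro i a b; rw [map_add, add_mul]
  | monomial i a =>
    rw [hmon]
    refine ⟨conv_mul (conv_poly r a) (hpow i).1, ?_⟩
    rw [ev_mul (conv_poly r a) (hpow i).1, (hpow i).2, ev_poly, Polynomial.sum_monomial_index]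
    simp

/-- Bound of the values of a polynomial on the unit interval. -/
theorem poly_bound (p : ℚ[X]) : ∃ B : ℝ, 0 ≤ B ∧ ∀ r : ℝ, 0 ≤ r → r ≤ 1 →
    |Polynomial.aeval r p| ≤ B := by
  refine ⟨∑ i ∈ p.support, |((p.coeff i : ℚ) : ℝ)|, Finset.sum_nonneg fun _ _ => abs_nonneg _,
    fun r h0 h1 => ?_⟩
  rw [Polynomial.aeval_def, Polynomial.eval₂_eq_sum, Polynomial.sum]
  refine (Finset.abs_sum_le_sum_abs _ _).trans (Finset.sum_le_sum fun i _ => ?_)
  rw [abs_mul, eq_ratCast, abs_pow, abs_of_nonneg h0]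
  exact mul_le_of_le_one_right (abs_nonneg _) (pow_le_one₀ h0 h1)

/-- Lower bound of the values of a non-zero polynomial near `1`. -/
theorem poly_lower (p : ℚ[X]) (hp : p ≠ 0) : ∃ (c : ℝ) (s : ℕ) (δ : ℝ), 0 < c ∧ 0 < δ ∧
    ∀ u : ℝ, 0 < u → u < δ → c * u ^ s ≤ |Polynomial.aeval (1 - u) p| := by
  obtain ⟨q, hq, hnd⟩ := Polynomial.exists_eq_pow_rootMultiplicity_mul_and_not_dvd p hp 1
  set s := p.rootMultiplicity 1
  have hq1 : Polynomial.aeval (1 : ℝ) q ≠ 0 := by
    intro h
    apply hnd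
    rw [Polynomial.dvd_iff_isRoot, Polynomial.IsRoot.def]
    have h2 : Polynomial.aeval (1 : ℝ) q = ((Polynomial.eval 1 q : ℚ) : ℝ) := by
      have := Polynomial.aeval_algebraMap_apply ℝ (1 : ℚ) q
      rw [map_one] at this
      rw [this, Polynomial.coe_aeval_eq_eval]
      rfl
    rw [h2] at h
    exact_mod_cast h
  have hcont : Continuous fun u : ℝ => |Polynomial.aeval (1 - u) q| := by fun_prop
  have h0 : |Polynomial.aeval (1 : ℝ) q| / 2 < |Polynomial.aeval (1 - (0 : ℝ)) q| := by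
    rw [sub_zero]
    have := abs_pos.2 hq1
    linarith
  have hev := hcont.continuousAt (x := 0) |>.eventually (lt_mem_nhds h0)
  obtain ⟨δ, hδ, hδ'⟩ := Metric.eventually_nhds_iff.1 hev
  refine ⟨|Polynomial.aeval (1 : ℝ) q| / 2, s, δ, by have := abs_pos.2 hq1; linarith, hδ,
    fun u hu hu' => ?_⟩
  have h3 := hδ' (y := u) (by rw [Real.dist_eq, sub_zero, abs_of_pos hu]; exact hu')
  rw [hq]
  simp only [map_mul, map_pow, map_sub, Polynomial.aeval_X, map_one]
  rw [abs_mul, abs_pow]
  have h4 : |1 - u - 1| = u := by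
    rw [show 1 - u - 1 = -u by ring, abs_neg, abs_of_pos hu]
  rw [h4, mul_comm]
  exact mul_le_mul_of_nonneg_left h3.le (pow_nonneg hu.le _)

/-- The growth criterion. -/
theorem transcendental_of_growth (h : ℕ → ℕ)
    (hsum : ∀ r : ℝ, 0 < r → r < 1 → Summable (fun d => (h d : ℝ) * r ^ d))
    (hgrow : ∀ (s : ℕ) (C : ℝ), ∃ L : ℝ, 1 ≤ L ∧ C ≤ L ∧
      C * L ^ s < ∑' d, (h d : ℝ) * (1 - 1 / (4 * L)) ^ d) :
    Transcendental ℚ[X] (PowerSeries.mk fun d => (h d : ℚ)) := by
  set H := PowerSeries.mk fun d => (h d : ℚ) with hH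
  have hconv : ∀ r : ℝ, 0 < r → r < 1 → Conv r H := by
    intro r h0 h1
    refine (hsum r h0 h1).congr fun d => ?_
    rw [hH, PowerSeries.coeff_mk, Rat.cast_natCast, Real.norm_of_nonneg]
    positivity
  have hevH : ∀ r : ℝ, ev r H = ∑' d, (h d : ℝ) * r ^ d := by
    intro r
    rw [ev]
    refine tsum_congr fun d => ?_
    rw [hH, PowerSeries.coeff_mk, Rat.cast_natCast]
  rw [transcendental_iff]
  intro F hF
  by_contra hF0
  set m := F.natDegree with hm
  obtain ⟨c, s, δ, hc, hδ, hlow⟩ := poly_lower F.leadingCoeff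
    (Polynomial.leadingCoeff_ne_zero.2 hF0)
  choose B hB0 hB using fun i => poly_bound (F.coeff i)
  set A : ℝ := ∑ i ∈ Finset.range m, B i with hA
  have hA0 : 0 ≤ A := Finset.sum_nonneg fun i _ => hB0 i
  obtain ⟨L, hL1, hLC, hL⟩ := hgrow s (1 + 1 / δ + A * 4 ^ s / c)
  have hcpos : 0 ≤ A * 4 ^ s / c := by positivity
  have hδpos : 0 < 1 / δ := by positivity
  set u : ℝ := 1 / (4 * L) with hu
  have hu0 : 0 < u := by positivity
  have hu1 : u ≤ 1 / 4 := by
    rw [hu, div_le_div_iff₀ (by positivity) (by norm_num)]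
    linarith
  have huδ : u < δ := by
    have h1 : 1 / δ < L := by linarith
    rw [hu, div_lt_iff₀ (by positivity)]
    rw [div_lt_iff₀ hδ] at h1
    nlinarith
  have hr0 : 0 < 1 - u := by linarith
  have hr1 : 1 - u < 1 := by linarith
  have hev := (ev_aeval (hconv (1 - u) hr0 hr1) F).2
  rw [hF] at hev
  have hz : ev (1 - u) 0 = 0 := by
    rw [ev]
    simp
  rw [hz] at hev
  set y := ev (1 - u) H with hy
  have hLs : 1 ≤ L ^ s := one_le_pow₀ hL1
  have hyL : (1 + 1 / δ + A * 4 ^ s / c) * L ^ s < y := by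
    rw [hy, hevH]
    exact hL
  have hy1 : 1 ≤ y := by
    have h1 : 1 ≤ (1 + 1 / δ + A * 4 ^ s / c) * L ^ s := by
      have : 1 ≤ 1 + 1 / δ + A * 4 ^ s / c := by linarith
      nlinarith
    linarith
  have hyA : A * 4 ^ s / c * L ^ s < y := by
    have : A * 4 ^ s / c * L ^ s ≤ (1 + 1 / δ + A * 4 ^ s / c) * L ^ s := by
      refine mul_le_mul_of_nonneg_right ?_ (by positivity)
      linarith
    linarith
  rw [Polynomial.sum_over_range _ (by simp), Finset.sum_range_succ, ← hm] at hev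
  have hlc : F.coeff m = F.leadingCoeff := rfl
  rw [hlc] at hev
  have h1 : c * u ^ s * y ^ m ≤ |Polynomial.aeval (1 - u) F.leadingCoeff * y ^ m| := by
    rw [abs_mul, abs_of_nonneg (pow_nonneg (by linarith : (0:ℝ) ≤ y) m)]
    exact mul_le_mul_of_nonneg_right (hlow u hu0 huδ) (pow_nonneg (by linarith) m)
  have h2 : |Polynomial.aeval (1 - u) F.leadingCoeff * y ^ m| ≤
      ∑ i ∈ Finset.range m, B i * y ^ i := by
    have h3 : Polynomial.aeval (1 - u) F.leadingCoeff * y ^ m =
        -∑ i ∈ Finset.range m, Polynomial.aeval (1 - u) (F.coeff i) * y ^ i := by linarith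
    rw [h3, abs_neg]
    refine (Finset.abs_sum_le_sum_abs _ _).trans (Finset.sum_le_sum fun i _ => ?_)
    rw [abs_mul, abs_of_nonneg (pow_nonneg (by linarith : (0:ℝ) ≤ y) i)]
    exact mul_le_mul_of_nonneg_right (hB i _ hr0.le hr1.le) (pow_nonneg (by linarith) i)
  have h4 : c * u ^ s * y ^ m * y ≤ A * y ^ m := by
    have h5 : (∑ i ∈ Finset.range m, B i * y ^ i) * y ≤ A * y ^ m := by
      rw [hA, Finset.sum_mul, Finset.sum_mul]
      refine Finset.sum_le_sum fun i hi => ?_
      rw [mul_assoc, ← pow_succ]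
      exact mul_le_mul_of_nonneg_left (pow_le_pow_right₀ hy1 (Finset.mem_range.1 hi)) (hB0 i)
    have h6 := mul_le_mul_of_nonneg_right (h1.trans h2) (by linarith : (0:ℝ) ≤ y)
    linarith
  have hym : 0 < y ^ m := by positivity
  have h7 : c * u ^ s * y ≤ A := by
    have : (c * u ^ s * y) * y ^ m ≤ A * y ^ m := by linarith
    exact le_of_mul_le_mul_right this hym
  have h8 : u ^ s * (4 ^ s * L ^ s) = 1 := by
    rw [← mul_pow, ← mul_pow, hu, one_div, inv_mul_cancel₀ (by positivity), one_pow]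
  have h9 : A * (4 ^ s * L ^ s) < c * y := by
    have h10 : A * 4 ^ s / c * L ^ s * c = A * (4 ^ s * L ^ s) := by
      field_simp
    rw [← h10]
    nlinarith
  have h11 : c * y ≤ A * (4 ^ s * L ^ s) := by
    have h12 : c * y = (c * u ^ s * y) * (4 ^ s * L ^ s) := by
      calc c * y = c * y * 1 := by ring
        _ = c * y * (u ^ s * (4 ^ s * L ^ s)) := by rw [h8]
        _ = _ := by ring
    rw [h12]
    exact mul_le_mul_of_nonneg_right h7 (by positivity)
  linarith

end Pool.Agent.Y146.PR.Trans
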