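import Mathlib
import Pool.Agent.W526.PrestableStar

/-!
# The Chow groups of the union of an open union of strata with the star locus
-/

set_option autoImplicit false

open scoped Classical

namespace Pool.Agent.Y146.PR

open Pool.Agent.W526.Prestable

variable {n : ℕ}

/-- Partitions of `d` with at least `K` parts. -/
abbrev PartGE (K d : ℕ) : Type := {p : Nat.Partition d // K ≤ p.parts.card}

/-- `x` is a decorated star with centre `c`, more than `K` vertices, exponent `0` at the centre and
codimension `d`. -/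
def IsNew (K d : ℕ) (x : Decorated n) (c : Fin x.k) : Prop :=
  IsCenter x.toLegGraph c ∧ K < x.k ∧ x.e c = 0 ∧ (parts x c).sum = d

theorem flags_center {Γ : LegGraph n} {c : Fin Γ.k} (h : IsCenter Γ c) :
    Γ.flags c = (Finset.univ.erase c).disjSum Finset.univ := by
  ext x
  rw [mem_flags]
  rcases x with w | i
  · rw [Finset.inl_mem_disjSum, Finset.mem_erase]
    constructor
    · rintro (⟨w', e, hw⟩ | ⟨i, e, -⟩)
      · cases e
        exact ⟨fun e => (h.2 _ _).1 hw |>.1 e.symm, Finset.mem_univ _⟩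
      · cases e
    · rintro ⟨hw, -⟩
      exact Or.inl ⟨w, rfl, (h.2 _ _).2 ⟨fun e => hw e.symm, Or.inl rfl⟩⟩
  · rw [Finset.inr_mem_disjSum]
    constructor
    · intro _
      exact Finset.mem_univ _
    · intro _
      exact Or.inr ⟨i, rfl, h.1 i⟩

theorem val_center_eq {Γ : LegGraph n} {c : Fin Γ.k} (h : IsCenter Γ c) :
    Γ.val c = Γ.k - 1 + n := by
  rw [LegGraph.val, flags_center h, Finset.card_disjSum, Finset.card_erase_of_mem
    (Finset.mem_univ _), Finset.card_univ, Finset.card_univ, Fintype.card_fin, Fintype.card_fin]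

variable {K : ℕ} (hK : 3 ≤ n + K)

include hK

theorem three_le {Γ : LegGraph n} {c : Fin Γ.k} (h : IsCenter Γ c) (hk : K < Γ.k) :
    3 ≤ Γ.val c := by
  rw [val_center_eq h]
  omega

theorem val_ne_two' {Γ : LegGraph n} {c : Fin Γ.k} (h : IsCenter Γ c) (hk : K < Γ.k)
    (v : Fin Γ.k) : Γ.val v ≠ 2 := by
  rcases eq_or_ne v c with rfl | hv
  · have := three_le hK h hk
    omega
  · rw [val_of_ne h hv]
    omega

theorem center_unique {Γ : LegGraph n} {c c' : Fin Γ.k} (h : IsCenter Γ c) (h' : IsCenter Γ c')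
    (hk : K < Γ.k) : c = c' := by
  by_contra hne
  have h1 := three_le hK h hk
  rw [val_of_ne h' hne] at h1
  omega

theorem normal_iff' {x : Decorated n} {c : Fin x.k} (h : IsCenter x.toLegGraph c) (hk : K < x.k) :
    x.Normal ↔ x.e c = 0 := by
  constructor
  · intro hx
    exact (hx c).1 (three_le hK h hk)
  · intro hx v
    refine ⟨fun hv => ?_, fun hv => absurd hv (val_ne_two' hK h hk v)⟩
    rcases eq_or_ne v c with rfl | hv'
    · exact hx
    · rw [val_of_ne h hv'] at hv
      omega

theorem codim_eq' {x : Decorated n} {c : Fin x.k} (h : IsCenter x.toLegGraph c) (hk : K < x.k)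
    (hx : x.e c = 0) : x.codim = (parts x c).sum := by
  have h1 : (parts x c).sum = ∑ v ∈ Finset.univ.filter (· ≠ c), (x.e v + 1) := rfl
  have h2 : ∀ v, (if x.val v = 0 then 2 else 1) * x.e v = x.e v := by
    intro v
    rw [if_neg, one_mul]
    rcases eq_or_ne v c with rfl | hv
    · have := three_le hK h hk
      omega
    · rw [val_of_ne h hv]
      omega
  have h3 : ∑ v, x.e v = ∑ v ∈ Finset.univ.filter (· ≠ c), x.e v := by
    rw [Finset.sum_filter_of_ne]
    intro v _ hv e
    rw [e] at hv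
    exact hv hx
  have h4 : (Finset.univ.filter (· ≠ c)).card = x.k - 1 := by
    rw [Finset.filter_ne', Finset.card_erase_of_mem (Finset.mem_univ _), Finset.card_univ,
      Fintype.card_fin]
  rw [h1, Finset.sum_add_distrib, Finset.sum_const, smul_eq_mul, mul_one, h4,
    Decorated.codim, Finset.sum_congr rfl (fun v _ => h2 v), h3, add_comm]

omit hK in
theorem card_parts (x : Decorated n) (c : Fin x.k) : (parts x c).card = x.k - 1 := by
  rw [parts, Multiset.card_map, Finset.card_val, Finset.filter_ne', Finset.card_erase_of_mem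
    (Finset.mem_univ _), Finset.card_univ, Fintype.card_fin]

omit hK in
/-- The partition of a new generator. -/
noncomputable def toPart {d : ℕ} {x : Decorated n} {c : Fin x.k} (h : IsNew K d x c) :
    PartGE K d :=
  ⟨{ parts := parts x c
     parts_pos := by
      intro i hi
      rw [parts, Multiset.mem_map] at hi
      obtain ⟨v, -, rfl⟩ := hi
      omega
     parts_sum := h.2.2.2 }, by
      change K ≤ (parts x c).card
      rw [card_parts]
      have := h.2.1
      omega⟩

omit hK in
/-- The map from the decorated graphs to the free space on the partitions. -/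
noncomputable def gmap' (K d : ℕ) (x : Decorated n) : PartGE K d →₀ ℚ :=
  if h : ∃ c, IsNew K d x c then Finsupp.single (toPart h.choose_spec) 1 else 0

theorem gmap_eq {d : ℕ} {x : Decorated n} {c : Fin x.k} (h : IsNew K d x c) :
    gmap' K d x = Finsupp.single (toPart h) 1 := by
  have h' : ∃ c, IsNew K d x c := ⟨c, h⟩
  rw [gmap', dif_pos h']
  have e : h'.choose = c := center_unique hK h'.choose_spec.1 h.1 h.2.1
  congr 1
  apply Subtype.ext
  apply Nat.Partition.ext
  change parts x _ = parts x c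
  rw [e]

omit hK in
theorem gmap_zero {d : ℕ} {x : Decorated n} (h : ¬ ∃ c, IsNew K d x c) : gmap' K d x = 0 := by
  rw [gmap', dif_neg h]

omit hK in
noncomputable def lmap' (n K d : ℕ) : (Decorated n →₀ ℚ) →ₗ[ℚ] (PartGE K d →₀ ℚ) :=
  Finsupp.linearCombination ℚ (gmap' K d)

omit hK in
theorem lmap_single' (d : ℕ) (x : Decorated n) (r : ℚ) :
    lmap' n K d (Finsupp.single x r) = r • gmap' K d x := by
  rw [lmap', Finsupp.linearCombination_single]

omit hK in
theorem gmap_of_not' (d : ℕ) (x : Decorated n) (h : ¬ x.toLegGraph ∈ starLocus n) :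
    gmap' K d x = 0 := by
  apply gmap_zero
  rintro ⟨c, hc⟩
  exact h ⟨c, hc.1⟩

omit hK in
theorem iso_new {d : ℕ} {x y : Decorated n} {f : Fin x.k ≃ Fin y.k} (h : x.IsIso y f)
    {c : Fin x.k} (hc : IsNew K d x c) : IsNew K d y (f c) := by
  have hk : x.k = y.k := by simpa using Fintype.card_congr f
  exact ⟨iso_center h hc.1, hk ▸ hc.2.1, by rw [h.2.2, hc.2.2.1], by rw [iso_parts h, hc.2.2.2]⟩

theorem iso_gmap' (d : ℕ) {x y : Decorated n} {f : Fin x.k ≃ Fin y.k} (h : x.IsIso y f) :
    gmap' K d x = gmap' K d y := by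
  by_cases hx : ∃ c, IsNew K d x c
  · obtain ⟨c, hc⟩ := hx
    rw [gmap_eq hK hc, gmap_eq hK (iso_new h hc)]
    congr 1
    apply Subtype.ext
    apply Nat.Partition.ext
    change parts x _ = parts y _
    rw [iso_parts h]
  · have hy : ¬ ∃ c, IsNew K d y c := by
      rintro ⟨c, hc⟩
      exact hx ⟨_, iso_new (iso_symm h) hc⟩
    rw [gmap_zero hx, gmap_zero hy]

theorem sign_eq_one' {d : ℕ} {x y : Decorated n} (f : Fin x.k ≃ Fin y.k)
    (hx : ∃ c, IsNew K d x c) : x.sign y f = 1 := by
  obtain ⟨c, hc⟩ := hx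
  rw [Decorated.sign]
  refine Finset.prod_eq_one fun v _ => ?_
  rw [if_neg]
  exact fun h => val_ne_two' hK hc.1 hc.2.1 v h.1

omit hK in
theorem lmap_splitSum' (d : ℕ) (x : Decorated n) (v : Fin x.k)
    {a b c e : Fin x.k ⊕ Fin n} (ha : a ∈ x.flags v) (hc : c ∈ x.flags v) :
    lmap' n K d (x.splitSum v a b c e) = 0 := by
  rw [Decorated.splitSum, map_sum]
  refine Finset.sum_eq_zero fun I hI => ?_
  rw [Finset.mem_filter] at hI
  rw [lmap_single', gmap_of_not' d _ (split_not_star x v I ha hc hI.2.1 hI.2.2.2.1), smul_zero]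

omit hK in
/-- Isomorphic graphs are contractions of each other. -/
theorem contracts_of_iso {x y : Decorated n} {f : Fin x.k ≃ Fin y.k} (h : x.IsIso y f) :
    x.toLegGraph.Contracts y.toLegGraph := by
  refine ⟨f, f.surjective, fun c => ?_, fun c d => ?_, h.2.1⟩
  · intro a b
    have : a = b := Subtype.ext (f.injective (a.2.trans b.2.symm))
    rw [this]
  · constructor
    · intro hcd
      refine ⟨hcd.ne, f.symm c, f.symm d, f.apply_symm_apply c, f.apply_symm_apply d, ?_⟩
      rw [← h.1, f.apply_symm_apply, f.apply_symm_apply]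
      exact hcd
    · rintro ⟨-, a, b, rfl, rfl, hab⟩
      exact (h.1 a b).2 hab

omit hK in
theorem mem_iso {V : Set (LegGraph n)} (hV : IsOpenUnionOfStrata V) {x y : Decorated n}
    {f : Fin x.k ≃ Fin y.k} (h : x.IsIso y f) : x.toLegGraph ∈ V ↔ y.toLegGraph ∈ V :=
  ⟨fun hx => hV.generize _ hx _ (contracts_of_iso h),
    fun hy => hV.generize _ hy _ (contracts_of_iso (iso_symm h))⟩

variable {V : Set (LegGraph n)} (hV : IsOpenUnionOfStrata V)
  (hS : ∀ Γ ∈ starLocus n, Γ ∈ V ↔ Γ.k ≤ K)

/-- A decorated graph is a generator of the Chow group of the union but not of the Chow group of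
`V` if and only if it is new. -/
theorem new_iff (hS : ∀ Γ ∈ starLocus n, Γ ∈ V ↔ Γ.k ≤ K) (d : ℕ) (x : Decorated n) :
    (IsGenerator (V ∪ starLocus n) d x ∧ x.toLegGraph ∉ V) ↔ ∃ c, IsNew K d x c := by
  constructor
  · rintro ⟨⟨hx, hN, hd⟩, hxV⟩
    rcases hx with hx | hx
    · exact absurd hx hxV
    · have hk : K < x.k := by
        by_contra hk
        exact hxV ((hS _ hx).2 (by omega))
      obtain ⟨c, hc⟩ := hx
      have hc' : IsCenter x.toLegGraph c := hc
      have h0 := (normal_iff' hK hc' hk).1 hN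
      exact ⟨c, hc', hk, h0, by rw [← codim_eq' hK hc' hk h0, hd]⟩
  · rintro ⟨c, hc, hk, h0, hd⟩
    have hm : x.toLegGraph ∈ starLocus n := ⟨c, hc⟩
    refine ⟨⟨Or.inr hm, (normal_iff' hK hc hk).2 h0, by rw [codim_eq' hK hc hk h0, hd]⟩, ?_⟩
    rw [hS _ hm]
    omega

/-- The class of a decorated graph in the Chow group. -/
noncomputable def kls (U : Set (LegGraph n)) (d : ℕ) (x : Decorated n) : Chow U d :=
  (relations U d).mkQ (Finsupp.single x 1)

omit hK in
theorem kls_zero {U : Set (LegGraph n)} {d : ℕ} {x : Decorated n} (h : ¬ IsGenerator U d x) :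
    kls U d x = 0 := by
  rw [kls, Submodule.mkQ_apply, Submodule.Quotient.mk_eq_zero]
  exact Submodule.subset_span (Or.inl (Or.inl ⟨x, h, rfl⟩))

omit hK in
theorem kls_iso {U : Set (LegGraph n)} {d : ℕ} {x y : Decorated n} {f : Fin x.k ≃ Fin y.k}
    (h : x.IsIso y f) (hx : x.Normal) (hy : y.Normal) :
    kls U d x = x.sign y f • kls U d y := by
  have h0 : Finsupp.single x 1 - Finsupp.single y (x.sign y f) ∈ relations U d :=
    Submodule.subset_span (Or.inl (Or.inr ⟨x, y, f, hx, hy, h, rfl⟩))
  rw [kls, kls, ← map_smul, Finsupp.smul_single, smul_eq_mul, mul_one]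
  exact (Submodule.Quotient.eq _).2 h0

omit hK in
theorem relations_mono {V U : Set (LegGraph n)} (h : V ⊆ U) (d : ℕ) :
    relations U d ≤ relations V d := by
  rw [relations, relations]
  refine Submodule.span_mono ?_
  rintro r ((⟨x, hx, rfl⟩ | hr) | hr)
  · exact Or.inl (Or.inl ⟨x, fun h' => hx ⟨h h'.1, h'.2⟩, rfl⟩)
  · exact Or.inl (Or.inr hr)
  · exact Or.inr hr

theorem relations_le' (hS : ∀ Γ ∈ starLocus n, Γ ∈ V ↔ Γ.k ≤ K) (d : ℕ) :
    relations (V ∪ starLocus n) d ≤ LinearMap.ker (lmap' n K d) := by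
  rw [relations, Submodule.span_le]
  rintro r ((⟨x, hx, rfl⟩ | ⟨x, y, f, -, -, hf, rfl⟩) | ⟨x, v, a, b, c, e, -, -, ha, hb, hc, -, -, rfl⟩)
  · rw [SetLike.mem_coe, LinearMap.mem_ker, lmap_single', gmap_zero, smul_zero]
    intro h
    exact hx ((new_iff hK hS d x).2 h).1
  · rw [SetLike.mem_coe, LinearMap.mem_ker, map_sub, lmap_single', lmap_single',
      ← iso_gmap' hK d hf]
    by_cases hx : ∃ c, IsNew K d x c
    · rw [sign_eq_one' hK f hx, sub_self]
    · rw [gmap_zero hx, smul_zero, smul_zero, sub_self]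
  · rw [SetLike.mem_coe, LinearMap.mem_ker, map_sub, lmap_splitSum' d x v ha hc,
      lmap_splitSum' d x v ha hb, sub_self]

/-- The forward map. -/
noncomputable def fwd' (hS : ∀ Γ ∈ starLocus n, Γ ∈ V ↔ Γ.k ≤ K) (d : ℕ) :
    Chow (V ∪ starLocus n) d →ₗ[ℚ] Chow V d × (PartGE K d →₀ ℚ) :=
  ((relations (V ∪ starLocus n) d).liftQ (relations V d).mkQ (by
    rw [Submodule.ker_mkQ]
    exact relations_mono Set.subset_union_left d)).prod
  ((relations (V ∪ starLocus n) d).liftQ (lmap' n K d) (relations_le' hK hS d))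

theorem fwd_kls (hS : ∀ Γ ∈ starLocus n, Γ ∈ V ↔ Γ.k ≤ K) (d : ℕ) (x : Decorated n) :
    fwd' hK hS d (kls (V ∪ starLocus n) d x) = (kls V d x, gmap' K d x) := by
  refine Prod.ext ?_ ?_
  · change (relations (V ∪ starLocus n) d).liftQ (relations V d).mkQ _
      (Submodule.Quotient.mk (Finsupp.single x 1)) = _
    rw [Submodule.liftQ_apply]
    rfl
  · change (relations (V ∪ starLocus n) d).liftQ (lmap' n K d) _
      (Submodule.Quotient.mk (Finsupp.single x 1)) = _
    rw [Submodule.liftQ_apply, lmap_single', one_smul]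

omit hK in
/-- The section of the restriction on decorated graphs. -/
noncomputable def smap (V : Set (LegGraph n)) (d : ℕ) (x : Decorated n) :
    Chow (V ∪ starLocus n) d :=
  if x.toLegGraph ∈ V then kls (V ∪ starLocus n) d x else 0

omit hK in
theorem smap_split (d : ℕ) (x : Decorated n) (v : Fin x.k) (a b c e : Fin x.k ⊕ Fin n)
    (ha : a ∈ x.flags v) (hc : c ∈ x.flags v) :
    Finsupp.linearCombination ℚ (smap V d) (x.splitSum v a b c e) =
      (relations (V ∪ starLocus n) d).mkQ (x.splitSum v a b c e) := by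
  rw [Decorated.splitSum, map_sum, map_sum]
  refine Finset.sum_congr rfl fun I hI => ?_
  rw [Finset.mem_filter] at hI
  rw [Finsupp.linearCombination_single, one_smul, smap]
  split_ifs with h
  · rfl
  · refine (kls_zero (U := V ∪ starLocus n) (d := d) ?_).symm
    rintro ⟨h1 | h1, -⟩
    · exact h h1
    · exact split_not_star x v I ha hc hI.2.1 hI.2.2.2.1 h1

omit hK in
theorem relations_le_smap (hV : IsOpenUnionOfStrata V) (d : ℕ) :
    relations V d ≤ LinearMap.ker (Finsupp.linearCombination ℚ (smap V d)) := by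
  rw [relations, Submodule.span_le]
  rintro r ((⟨x, hx, rfl⟩ | ⟨x, y, f, hNx, hNy, hf, rfl⟩) |
    ⟨x, v, a, b, c, e, hT, hN, ha, hb, hc, he, hnd, rfl⟩)
  · rw [SetLike.mem_coe, LinearMap.mem_ker, Finsupp.linearCombination_single, one_smul, smap]
    split_ifs with h
    · refine kls_zero ?_
      rintro ⟨-, h2⟩
      exact hx ⟨h, h2⟩
    · rfl
  · rw [SetLike.mem_coe, LinearMap.mem_ker, map_sub, Finsupp.linearCombination_single,
      Finsupp.linearCombination_single, one_smul, smap, smap]
    by_cases hx : x.toLegGraph ∈ V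
    · rw [if_pos hx, if_pos ((mem_iso hV hf).1 hx), kls_iso hf hNx hNy, sub_self]
    · rw [if_neg hx, if_neg (fun hy => hx ((mem_iso hV hf).2 hy)), smul_zero, sub_self]
  · rw [SetLike.mem_coe, LinearMap.mem_ker, map_sub, smap_split d x v a b c e ha hc,
      smap_split d x v a c b e ha hb, ← map_sub, Submodule.mkQ_apply,
      Submodule.Quotient.mk_eq_zero]
    exact Submodule.subset_span (Or.inr ⟨x, v, a, b, c, e, hT, hN, ha, hb, hc, he, hnd, rfl⟩)

omit hK in
/-- The backward map. -/
noncomputable def bwd' (K : ℕ) (hV : IsOpenUnionOfStrata V) (d : ℕ) :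
    Chow V d × (PartGE K d →₀ ℚ) →ₗ[ℚ] Chow (V ∪ starLocus n) d :=
  ((relations V d).liftQ (Finsupp.linearCombination ℚ (smap V d))
    (relations_le_smap hV d)).coprod
  (Finsupp.linearCombination ℚ (fun p => kls (V ∪ starLocus n) d (stdp n p.1)))

omit hK in
theorem bwd_kls (hV : IsOpenUnionOfStrata V) (d : ℕ) (x : Decorated n) (g : PartGE K d →₀ ℚ) :
    bwd' K hV d (kls V d x, g) = smap V d x +
      Finsupp.linearCombination ℚ (fun p : PartGE K d =>
        kls (V ∪ starLocus n) d (stdp n p.1)) g := by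
  rw [bwd', LinearMap.coprod_apply, kls, Submodule.mkQ_apply, Submodule.liftQ_apply,
    Finsupp.linearCombination_single, one_smul]

omit hK in
theorem std_new {d : ℕ} (p : PartGE K d) :
    IsNew K d (stdp n p.1) (0 : Fin (p.1.parts.toList.length + 1)) := by
  refine ⟨std_center n _, ?_, rfl, (congrArg Multiset.sum (parts_std n p.1)).trans p.1.parts_sum⟩
  change K < p.1.parts.toList.length + 1
  have := p.2
  rw [Multiset.length_toList]
  omega

theorem gmap_std' {d : ℕ} (p : PartGE K d) :
    gmap' K d (stdp n p.1) = Finsupp.single p 1 := by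
  rw [gmap_eq hK (std_new p)]
  congr 1
  apply Subtype.ext
  apply Nat.Partition.ext
  exact parts_std n p.1

include hV in
theorem bwd_fwd (hS : ∀ Γ ∈ starLocus n, Γ ∈ V ↔ Γ.k ≤ K) (d : ℕ) (x : Decorated n) :
    bwd' K hV d (fwd' hK hS d (kls (V ∪ starLocus n) d x)) = kls (V ∪ starLocus n) d x := by
  rw [fwd_kls, bwd_kls]
  by_cases hx : x.toLegGraph ∈ V
  · rw [smap, if_pos hx, gmap_zero, map_zero, add_zero]
    intro h
    exact ((new_iff hK hS d x).2 h).2 hx
  · rw [smap, if_neg hx, zero_add]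
    by_cases h : ∃ c, IsNew K d x c
    · obtain ⟨c, hc⟩ := h
      rw [gmap_eq hK hc, Finsupp.linearCombination_single, one_smul]
      obtain ⟨f, hf⟩ : ∃ f : Fin (stdp n (toPart hc).1).k ≃ Fin x.k,
          (stdp n (toPart hc).1).IsIso x f :=
        exists_iso (std_center n (toPart hc).1.parts.toList) hc.1
          (by rw [hc.2.2.1]; rfl) (parts_std n (toPart hc).1)
      have h1 := std_new (n := n) (toPart hc)
      have h2 : (stdp n (toPart hc).1).Normal := (normal_iff' hK h1.1 h1.2.1).2 h1.2.2.1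
      rw [kls_iso (x := stdp n (toPart hc).1) hf h2 ((normal_iff' hK hc.1 hc.2.1).2 hc.2.2.1),
        sign_eq_one' hK (d := d) f ⟨_, h1⟩, one_smul]
    · rw [gmap_zero h, map_zero]
      refine (kls_zero ?_).symm
      intro hg
      exact h ((new_iff hK hS d x).1 ⟨hg, hx⟩)

/-- `CH^d(V ∪ S)` is the direct sum of `CH^d(V)` and the free space on the partitions of `d` with
at least `K` parts. -/
noncomputable def unionEquiv (hV : IsOpenUnionOfStrata V)
    (hS : ∀ Γ ∈ starLocus n, Γ ∈ V ↔ Γ.k ≤ K) (d : ℕ) :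
    Chow (V ∪ starLocus n) d ≃ₗ[ℚ] Chow V d × (PartGE K d →₀ ℚ) :=
  LinearEquiv.ofLinearMap (fwd' hK hS d) (bwd' K hV d)
    (by
      apply LinearMap.prod_ext
      · apply Submodule.linearMap_qext
        ext1 x
        ext1
        change fwd' hK hS d (bwd' K hV d (kls V d x, 0)) = (kls V d x, 0)
        rw [bwd_kls, map_zero, add_zero, smap]
        split_ifs with hx
        · rw [fwd_kls, gmap_zero]
          intro h
          exact ((new_iff hK hS d x).2 h).2 hx
        · rw [map_zero, kls_zero (U := V)]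
          · rfl
          · exact fun h => hx h.1
      · ext1 p
        ext1
        change fwd' hK hS d (bwd' K hV d (0, Finsupp.single p 1)) = (0, Finsupp.single p 1)
        rw [bwd', LinearMap.coprod_apply, map_zero, zero_add, Finsupp.linearCombination_single,
          one_smul, fwd_kls, gmap_std' hK, kls_zero]
        intro h
        have h1 := (new_iff hK hS d (stdp n p.1)).2 ⟨_, std_new p⟩
        exact h1.2 h.1)
    (by
      apply Submodule.linearMap_qext
      ext1 x
      ext1
      exact bwd_fwd hK hV hS d x)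

end Pool.Agent.Y146.PR
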