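import Mathlib
import Pool.Agent.Y146.PR.Union

/-!
# Finiteness of the Chow groups; polynomial bound for strata of bounded size
-/

set_option autoImplicit false

open scoped Classical

namespace Pool.Agent.Y146.PR

open Pool.Agent.W526.Prestable

variable {n : ℕ}

/-- The data of a decorated graph with `k` vertices and exponents at most `d`. -/
abbrev Dat (n d k : ℕ) : Type :=
  (SimpleGraph (Fin k) × (Fin n → Fin k) × (Fin k → Fin k ⊕ Fin n)) × (Fin k → Fin (d + 1))

/-- The decorated graphs with at most `N` vertices and exponents at most `d`. -/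
abbrev Box (n N d : ℕ) : Type := Σ k : Fin (N + 1), Dat n d k.1

/-- The decorated graph of a datum. -/
def ofBox {n N d : ℕ} (b : Box n N d) : Decorated n where
  k := b.1.1
  G := b.2.1.1
  leg := b.2.1.2.1
  e := fun v => (b.2.2 v).1
  o := b.2.1.2.2

theorem mem_box {N d : ℕ} (x : Decorated n) (hk : x.k ≤ N) (hd : x.codim ≤ d) :
    ∃ b : Box n N d, ofBox b = x := by
  have he : ∀ v, x.e v < d + 1 := by
    intro v
    have h1 : x.e v ≤ ∑ v, (if x.val v = 0 then 2 else 1) * x.e v := by
      refine le_trans ?_ (Finset.single_le_sum (f := fun v => (if x.val v = 0 then 2 else 1) * x.e v)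
        (fun _ _ => Nat.zero_le _) (Finset.mem_univ v))
      split_ifs
      · omega
      · omega
    have h2 : ∑ v, (if x.val v = 0 then 2 else 1) * x.e v ≤ x.codim := by
      rw [Decorated.codim]
      omega
    omega
  refine ⟨⟨⟨x.k, by omega⟩, ((x.G, x.leg, x.o), fun v => ⟨x.e v, he v⟩)⟩, ?_⟩
  rfl

/-- The map from the free space on a box to the Chow group. -/
noncomputable def boxMap (V : Set (LegGraph n)) (N d : ℕ) : (Box n N d →₀ ℚ) →ₗ[ℚ] Chow V d :=
  Finsupp.linearCombination ℚ (fun b => kls V d (ofBox b))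

theorem boxMap_surj (V : Set (LegGraph n)) (N d : ℕ)
    (h : ∀ x : Decorated n, IsGenerator V d x → x.k ≤ N) :
    Function.Surjective (boxMap V N d) := by
  rw [← LinearMap.range_eq_top, eq_top_iff]
  rintro z -
  obtain ⟨y, rfl⟩ := Submodule.mkQ_surjective _ z
  induction y using Finsupp.induction_linear with
  | zero => rw [map_zero]; exact Submodule.zero_mem _
  | add f g hf hg => rw [map_add]; exact Submodule.add_mem _ hf hg
  | single x r =>
    have h1 : Finsupp.single x r = r • Finsupp.single x (1 : ℚ) := by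
      rw [Finsupp.smul_single, smul_eq_mul, mul_one]
    rw [h1, map_smul]
    refine Submodule.smul_mem _ _ ?_
    by_cases hx : IsGenerator V d x
    · obtain ⟨b, rfl⟩ := mem_box (N := N) (d := d) x (h x hx) hx.2.2.le
      refine ⟨Finsupp.single b 1, ?_⟩
      rw [boxMap, Finsupp.linearCombination_single, one_smul]
      rfl
    · have := kls_zero hx
      rw [kls] at this
      rw [this]
      exact Submodule.zero_mem _

theorem chow_finite (V : Set (LegGraph n)) (d : ℕ) : Module.Finite ℚ (Chow V d) := by
  refine Module.Finite.of_surjective (boxMap V (d + 1) d) (boxMap_surj V (d + 1) d ?_)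
  intro x hx
  have := hx.2.2
  rw [Decorated.codim] at this
  omega

/-- Polynomial bound for open unions of strata of bounded size. -/
theorem finrank_le (V : Set (LegGraph n)) (N : ℕ) (hN : ∀ Γ ∈ V, Γ.k ≤ N) :
    ∃ C : ℕ, ∀ d, Module.finrank ℚ (Chow V d) ≤ C * (d + 1) ^ N := by
  refine ⟨∑ k : Fin (N + 1), Fintype.card (SimpleGraph (Fin k.1) × (Fin n → Fin k.1) ×
    (Fin k.1 → Fin k.1 ⊕ Fin n)), fun d => ?_⟩
  have hs := boxMap_surj V N d (fun x hx => hN _ hx.1)
  have h1 : Module.finrank ℚ (Chow V d) ≤ Module.finrank ℚ (Box n N d →₀ ℚ) := by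
    have := LinearMap.finrank_range_le (boxMap V N d)
    rwa [LinearMap.range_eq_top.2 hs, finrank_top] at this
  rw [Module.finrank_finsupp_self, Fintype.card_sigma] at h1
  refine h1.trans ?_
  rw [Finset.sum_mul]
  refine Finset.sum_le_sum fun k _ => ?_
  rw [Fintype.card_prod, Fintype.card_fun, Fintype.card_fin, Fintype.card_fin]
  exact Nat.mul_le_mul_left _ (Nat.pow_le_pow_right (by omega) (by omega))

end Pool.Agent.Y146.PR
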