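import Mathlib

/-!
# Rooted trees of bounded height are determined by their codes
-/

set_option autoImplicit false

open scoped Classical

namespace Pool.Agent.Y146.PR

/-- A rooted tree given by the parent relation and the levels. -/
structure RT (α : Type) where
  P : α → α → Prop
  lev : α → ℕ
  root : α
  lev_succ : ∀ v w, P v w → lev w = lev v + 1
  ex_par : ∀ w, lev w ≠ 0 → ∃ v, P v w
  uniq : ∀ v v' w, P v w → P v' w → v = v'
  lev_zero : ∀ v, lev v = 0 ↔ v = root

namespace RT

/-- The rooted tree of a tree with a chosen vertex. -/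
noncomputable def ofTree {α : Type} (G : SimpleGraph α) (hG : G.IsTree) (ρ : α) : RT α where
  P v w := G.Adj v w ∧ G.dist ρ w = G.dist ρ v + 1
  lev v := G.dist ρ v
  root := ρ
  lev_succ _ _ h := h.2
  ex_par := by
    intro w hw
    obtain ⟨p, hp⟩ := hG.connected.exists_walk_length_eq_dist ρ w
    have hne : ρ ≠ w := by
      rintro rfl
      exact hw SimpleGraph.dist_self
    have hn : ¬ p.Nil := SimpleGraph.Walk.not_nil_of_ne hne
    have ha := SimpleGraph.Walk.adj_penultimate hn
    refine ⟨p.penultimate, ha, ?_⟩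
    rcases hG.dist_eq_dist_add_one_of_adj ρ ha with h | h
    · exfalso
      have h1 := SimpleGraph.dist_le p.dropLast
      have h2 : p.dropLast.length + 1 = p.length := by
        have h3 := congrArg SimpleGraph.Walk.length (SimpleGraph.Walk.concat_dropLast ha)
        rw [SimpleGraph.Walk.length_concat] at h3
        exact h3
      omega
    · exact h
  uniq := by
    rintro v v' w ⟨ha, hd⟩ ⟨ha', hd'⟩
    obtain ⟨p, hp⟩ := hG.connected.exists_walk_length_eq_dist ρ v
    obtain ⟨q, hq⟩ := hG.connected.exists_walk_length_eq_dist ρ v'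
    have h1 : (p.concat ha).IsPath := by
      apply SimpleGraph.Walk.isPath_of_length_eq_dist
      rw [SimpleGraph.Walk.length_concat, hp, hd]
    have h2 : (q.concat ha').IsPath := by
      apply SimpleGraph.Walk.isPath_of_length_eq_dist
      rw [SimpleGraph.Walk.length_concat, hq, hd']
    have h3 := (hG.isAcyclic.subsingleton_path ρ w).elim ⟨_, h1⟩ ⟨_, h2⟩
    have h4 : p.concat ha = q.concat ha' := congrArg Subtype.val h3
    have h5 := congrArg SimpleGraph.Walk.penultimate h4
    rwa [SimpleGraph.Walk.penultimate_concat, SimpleGraph.Walk.penultimate_concat] at h5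
  lev_zero := by
    intro v
    rw [hG.connected.dist_eq_zero_iff]
    exact eq_comm

theorem adj_iff {α : Type} (G : SimpleGraph α) (hG : G.IsTree) (ρ v w : α) :
    G.Adj v w ↔ (ofTree G hG ρ).P v w ∨ (ofTree G hG ρ).P w v := by
  constructor
  · intro h
    rcases hG.dist_eq_dist_add_one_of_adj ρ h with h1 | h1
    · exact Or.inr ⟨h.symm, h1⟩
    · exact Or.inl ⟨h, h1⟩
  · rintro (h | h)
    · exact h.1
    · exact h.1.symm

end RT

/-- Codes of labelled rooted trees of height at most `j`. -/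
def C (L : Type) : ℕ → Type
  | 0 => L
  | j + 1 => L × Multiset (C L j)

/-- The label of the root of a code. -/
def C.lab {L : Type} : (j : ℕ) → C L j → L
  | 0, c => c
  | _ + 1, c => c.1

variable {α β L : Type} [Fintype α] [Fintype β]

/-- The code of the part of the tree above `v` up to `j` levels. -/
noncomputable def RT.code (T : RT α) (lab : α → L) : (j : ℕ) → α → C L j
  | 0, v => lab v
  | j + 1, v => (lab v, ((Finset.univ.filter (T.P v)).val.map (T.code lab j)))

theorem RT.lab_code (T : RT α) (lab : α → L) (j : ℕ) (v : α) :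
    C.lab j (T.code lab j v) = lab v := by
  cases j <;> rfl

/-- Functions with the same values, counted with multiplicity, differ by a bijection. -/
theorem exists_equiv' {α β γ : Type} [Fintype α] [Fintype β] (f : α → γ) (g : β → γ)
    (h : (Finset.univ : Finset α).val.map f = (Finset.univ : Finset β).val.map g) :
    ∃ e : α ≃ β, ∀ a, g (e a) = f a := by
  have hc : ∀ y, Fintype.card {a // f a = y} = Fintype.card {b // g b = y} := by
    intro y
    have h1 := congrArg (Multiset.count y) h
    rw [Multiset.count_map, Multiset.count_map] at h1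
    rw [Fintype.card_subtype, Fintype.card_subtype]
    simp only [eq_comm (a := y)] at h1
    exact h1
  refine ⟨(Equiv.sigmaFiberEquiv f).symm.trans ((Equiv.sigmaCongrRight fun y =>
    Fintype.equivOfCardEq (hc y)).trans (Equiv.sigmaFiberEquiv g)), fun a => ?_⟩
  simp only [Equiv.trans_apply, Equiv.sigmaFiberEquiv, Equiv.coe_fn_mk, Equiv.sigmaCongrRight_apply,
    Equiv.coe_fn_symm_mk]
  exact (Fintype.equivOfCardEq (hc (f a)) ⟨a, rfl⟩).2

theorem exists_children_equiv (T : RT α) (S : RT β) (lab : α → L) (lab' : β → L) (j : ℕ)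
    (v : α) (u : β) (h : S.code lab' (j + 1) u = T.code lab (j + 1) v) :
    ∃ e : {w // T.P v w} ≃ {z // S.P u z},
      ∀ a, S.code lab' j (e a).1 = T.code lab j a.1 := by
  have h1 : (Finset.univ.filter (S.P u)).val.map (S.code lab' j) =
    (Finset.univ.filter (T.P v)).val.map (T.code lab j) := congrArg Prod.snd h
  have key : ∀ {γ : Type} [Fintype γ] (p : γ → Prop) (f : γ → C L j),
      (Finset.univ.filter p).val.map f =
        (Finset.univ : Finset {w // p w}).val.map (fun w => f w.1) := by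
    intro γ _ p f
    rw [← Finset.subtype_map, ← Finset.subtype_univ]
    simp [Finset.map_val, Multiset.map_map]
  rw [key, key] at h1
  exact exists_equiv' (fun a : {w // T.P v w} => T.code lab j a.1)
    (fun b : {z // S.P u z} => S.code lab' j b.1) h1.symm

/-- Partial isomorphisms up to level `m`. -/
def Part (T : RT α) (S : RT β) (lab : α → L) (lab' : β → L) (D m : ℕ) : Prop :=
  ∃ f : α → β,
    (∀ v, T.lev v ≤ m → S.lev (f v) = T.lev v ∧
      S.code lab' (D - T.lev v) (f v) = T.code lab (D - T.lev v) v) ∧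
    (∀ v w, T.lev v ≤ m → T.lev w ≤ m → f v = f w → v = w) ∧
    (∀ u, S.lev u ≤ m → ∃ v, T.lev v ≤ m ∧ f v = u) ∧
    (∀ v w, T.lev w ≤ m → T.P v w → S.P (f v) (f w))

theorem part_zero (T : RT α) (S : RT β) (lab : α → L) (lab' : β → L) (D : ℕ)
    (h : S.code lab' D S.root = T.code lab D T.root) : Part T S lab lab' D 0 := by
  refine ⟨fun _ => S.root, ?_, ?_, ?_, ?_⟩
  · intro v hv
    have h0 : T.lev v = 0 := Nat.le_zero.1 hv
    have h1 : v = T.root := (T.lev_zero v).1 h0
    rw [h0]
    refine ⟨(S.lev_zero _).2 rfl, ?_⟩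
    rw [h1]
    exact h
  · intro v w hv hw _
    rw [(T.lev_zero v).1 (Nat.le_zero.1 hv), (T.lev_zero w).1 (Nat.le_zero.1 hw)]
  · intro u hu
    exact ⟨T.root, (Nat.le_zero.2 ((T.lev_zero _).2 rfl)),
      ((S.lev_zero u).1 (Nat.le_zero.1 hu)).symm⟩
  · intro v w hw hP
    have := T.lev_succ v w hP
    omega

theorem part_succ (T : RT α) (S : RT β) (lab : α → L) (lab' : β → L) (D m : ℕ) (hm : m < D)
    (h : Part T S lab lab' D m) : Part T S lab lab' D (m + 1) := by
  obtain ⟨f, h1, h2, h3, h4⟩ := h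
  obtain ⟨j, hj⟩ : ∃ j, D - m = j + 1 := ⟨D - m - 1, by omega⟩
  have hj' : D - (m + 1) = j := by omega
  have hcode : ∀ v, T.lev v = m → S.code lab' (j + 1) (f v) = T.code lab (j + 1) v := by
    intro v hv
    have := (h1 v hv.le).2
    rw [hv, hj] at this
    exact this
  choose e he using fun (v : α) (hv : T.lev v = m) =>
    exists_children_equiv T S lab lab' j v (f v) (hcode v hv)
  have hpar : ∀ w, T.lev w = m + 1 → ∃ v, T.P v w ∧ T.lev v = m := by
    intro w hw
    obtain ⟨v, hv⟩ := T.ex_par w (by omega)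
    exact ⟨v, hv, by have := T.lev_succ v w hv; omega⟩
  choose par hpar1 hpar2 using hpar
  let g : α → β := fun w =>
    if hw : T.lev w = m + 1 then (e (par w hw) (hpar2 w hw) ⟨w, hpar1 w hw⟩).1 else f w
  have hg1 : ∀ w, T.lev w ≤ m → g w = f w := by
    intro w hw
    exact dif_neg (by omega)
  have hg2 : ∀ v w (hv : T.lev v = m) (hP : T.P v w), g w = (e v hv ⟨w, hP⟩).1 := by
    intro v w hv hP
    have hw : T.lev w = m + 1 := by rw [T.lev_succ v w hP, hv]
    have hvw : par w hw = v := T.uniq _ _ w (hpar1 w hw) hP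
    subst hvw
    exact dif_pos hw
  have hgQ : ∀ v w, T.lev v = m → T.P v w → S.P (f v) (g w) := by
    intro v w hv hP
    rw [hg2 v w hv hP]
    exact (e v hv ⟨w, hP⟩).2
  have hlevf : ∀ v, T.lev v ≤ m → S.lev (f v) = T.lev v := fun v hv => (h1 v hv).1
  have hlevg : ∀ w, T.lev w ≤ m + 1 → S.lev (g w) = T.lev w := by
    intro w hw
    rcases Nat.lt_or_ge m (T.lev w) with hw' | hw'
    · have hw2 : T.lev w = m + 1 := by omega
      rw [S.lev_succ _ _ (hgQ _ _ (hpar2 w hw2) (hpar1 w hw2)), hlevf _ (hpar2 w hw2).le,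
        hpar2 w hw2, hw2]
    · rw [hg1 w hw', hlevf w hw']
  refine ⟨g, ?_, ?_, ?_, ?_⟩
  · intro w hw
    refine ⟨hlevg w hw, ?_⟩
    rcases Nat.lt_or_ge m (T.lev w) with hw' | hw'
    · have hw2 : T.lev w = m + 1 := by omega
      rw [hg2 _ w (hpar2 w hw2) (hpar1 w hw2), hw2, hj']
      exact he _ (hpar2 w hw2) _
    · rw [hg1 w hw']
      exact (h1 w hw').2
  · intro w w' hw hw' hgw
    have hl : T.lev w = T.lev w' := by rw [← hlevg w hw, ← hlevg w' hw', hgw]
    rcases Nat.lt_or_ge m (T.lev w) with h5 | h5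
    · have hw2 : T.lev w = m + 1 := by omega
      have hw2' : T.lev w' = m + 1 := by omega
      have a1 := hgQ _ _ (hpar2 w hw2) (hpar1 w hw2)
      have a2 := hgQ _ _ (hpar2 w' hw2') (hpar1 w' hw2')
      rw [hgw] at a1
      have a3 := h2 _ _ (hpar2 w hw2).le (hpar2 w' hw2').le (S.uniq _ _ _ a1 a2)
      have hP' : T.P (par w hw2) w' := by rw [a3]; exact hpar1 w' hw2'
      rw [hg2 _ w (hpar2 w hw2) (hpar1 w hw2), hg2 _ w' (hpar2 w hw2) hP'] at hgw
      have a4 := (e _ (hpar2 w hw2)).injective (Subtype.ext hgw)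
      exact congrArg Subtype.val a4
    · rw [hg1 w h5, hg1 w' (by omega)] at hgw
      exact h2 w w' h5 (by omega) hgw
  · intro u hu
    rcases Nat.lt_or_ge m (S.lev u) with h5 | h5
    · have hu2 : S.lev u = m + 1 := by omega
      obtain ⟨u0, hu0⟩ := S.ex_par u (by omega)
      have hu0l : S.lev u0 = m := by have := S.lev_succ _ _ hu0; omega
      obtain ⟨v, hv, rfl⟩ := h3 u0 hu0l.le
      have hvl : T.lev v = m := by rw [← hlevf v hv, hu0l]
      refine ⟨((e v hvl).symm ⟨u, hu0⟩).1, ?_, ?_⟩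
      · have := T.lev_succ _ _ ((e v hvl).symm ⟨u, hu0⟩).2
        omega
      · rw [hg2 v _ hvl ((e v hvl).symm ⟨u, hu0⟩).2]
        have : (⟨((e v hvl).symm ⟨u, hu0⟩).1, ((e v hvl).symm ⟨u, hu0⟩).2⟩ : {w // T.P v w}) =
          (e v hvl).symm ⟨u, hu0⟩ := rfl
        rw [this, Equiv.apply_symm_apply]
    · obtain ⟨v, hv, rfl⟩ := h3 u h5
      exact ⟨v, by omega, hg1 v hv⟩
  · intro v w hw hP
    have hl := T.lev_succ v w hP
    rw [hg1 v (by omega)]
    rcases Nat.lt_or_ge m (T.lev w) with h5 | h5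
    · exact hgQ v w (by omega) hP
    · rw [hg1 w h5]
      exact h4 v w h5 hP

/-- Labelled rooted trees of height at most `D` with the same code are isomorphic. -/
theorem exists_iso_of_code (T : RT α) (S : RT β) (lab : α → L) (lab' : β → L) (D : ℕ)
    (hT : ∀ v, T.lev v ≤ D) (hS : ∀ v, S.lev v ≤ D)
    (h : S.code lab' D S.root = T.code lab D T.root) :
    ∃ f : α ≃ β, (∀ v w, S.P (f v) (f w) ↔ T.P v w) ∧ ∀ v, lab' (f v) = lab v := by
  have hpart : ∀ m, m ≤ D → Part T S lab lab' D m := by
    intro m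
    induction m with
    | zero => intro _; exact part_zero T S lab lab' D h
    | succ m ih => intro hm; exact part_succ T S lab lab' D m (by omega) (ih (by omega))
  obtain ⟨f, h1, h2, h3, h4⟩ := hpart D le_rfl
  have hb : Function.Bijective f := by
    refine ⟨fun v w hvw => h2 v w (hT v) (hT w) hvw, fun u => ?_⟩
    obtain ⟨v, -, hv⟩ := h3 u (hS u)
    exact ⟨v, hv⟩
  refine ⟨Equiv.ofBijective f hb, fun v w => ⟨fun hP => ?_, fun hP => h4 v w (hT w) hP⟩,
    fun v => ?_⟩
  · have hP' : S.P (f v) (f w) := hP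
    have hl := S.lev_succ _ _ hP'
    rw [(h1 v (hT v)).1, (h1 w (hT w)).1] at hl
    obtain ⟨v0, hv0⟩ := T.ex_par w (by omega)
    have h5 := S.uniq _ _ _ hP' (h4 v0 w (hT w) hv0)
    have h6 := hb.1 h5
    rw [h6]
    exact hv0
  · have h5 := congrArg (C.lab (D - T.lev v)) (h1 v (hT v)).2
    rw [RT.lab_code, RT.lab_code] at h5
    exact h5

end Pool.Agent.Y146.PR
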