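import Mathlib
import Pool.Agent.Y146.PR.Rooted

/-!
# Counting codes: subexponential growth
-/

set_option autoImplicit false

open scoped Classical

namespace Pool.Agent.Y146.PR

/-- Sums over multisets of products are bounded by an infinite product. -/
theorem multiset_bound {ι : Type} (a : ι → ℝ) (r K : ℝ) (hr : r < 1) (ha0 : ∀ i, 0 ≤ a i)
    (ha1 : ∀ i, a i ≤ r) (hK : ∀ F : Finset ι, ∑ i ∈ F, a i ≤ K) (T : Finset (Multiset ι)) :
    ∑ M ∈ T, (M.map a).prod ≤ Real.exp (K / (1 - r)) := by
  set F : Finset ι := T.biUnion (fun M => M.toFinset) with hF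
  set N : ℕ := T.sup (fun M => M.card) with hN
  have hsub : ∀ M ∈ T, M.toFinset ⊆ F := fun M hM =>
    Finset.subset_biUnion_of_mem (fun M : Multiset ι => M.toFinset) hM
  have hcard : ∀ M ∈ T, ∀ i, M.count i ≤ N := fun M hM i =>
    (Multiset.count_le_card i M).trans (Finset.le_sup (f := fun M : Multiset ι => M.card) hM)
  have hprod : ∀ M ∈ T, (M.map a).prod = ∏ i : F, a i.1 ^ M.count i.1 := by
    intro M hM
    rw [Finset.prod_multiset_map_count]
    rw [Finset.prod_subset (hsub M hM) (fun i _ hi => by
      rw [Multiset.mem_toFinset] at hi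
      rw [Multiset.count_eq_zero_of_notMem hi, pow_zero])]
    rw [Finset.prod_coe_sort F (fun i => a i ^ M.count i)]
  have h1 : ∑ M ∈ T, (M.map a).prod ≤
      ∑ g ∈ Fintype.piFinset (fun _ : F => Finset.range (N + 1)), ∏ i : F, a i.1 ^ g i := by
    rw [Finset.sum_congr rfl hprod]
    have hinj : Set.InjOn (fun (M : Multiset ι) => fun i : F => M.count i.1) (T : Set (Multiset ι)) := by
      intro M hM M' hM' h
      ext i
      by_cases hi : i ∈ F
      · exact congrFun h ⟨i, hi⟩
      · rw [Multiset.count_eq_zero_of_notMem, Multiset.count_eq_zero_of_notMem]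
        · intro h'
          exact hi (hsub M' hM' (Multiset.mem_toFinset.2 h'))
        · intro h'
          exact hi (hsub M hM (Multiset.mem_toFinset.2 h'))
    rw [← Finset.sum_image (s := T) (g := fun (M : Multiset ι) => fun i : F => M.count i.1)
      (f := fun g : F → ℕ => ∏ i : F, a i.1 ^ g i) hinj]
    refine Finset.sum_le_sum_of_subset_of_nonneg ?_ (fun g _ _ =>
      Finset.prod_nonneg fun i _ => pow_nonneg (ha0 _) _)
    intro g hg
    obtain ⟨M, hM, rfl⟩ := Finset.mem_image.1 hg
    rw [Fintype.mem_piFinset]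
    intro i
    rw [Finset.mem_range]
    have := hcard M hM i.1
    omega
  refine h1.trans ?_
  rw [← Finset.prod_univ_sum (fun _ : F => Finset.range (N + 1)) (fun i j => a i.1 ^ j)]
  have h2 : ∀ i : F, ∑ j ∈ Finset.range (N + 1), a i.1 ^ j ≤ Real.exp (a i.1 / (1 - r)) := by
    intro i
    have h3 : a i.1 < 1 := (ha1 _).trans_lt hr
    have h4 : ∑ j ∈ Finset.range (N + 1), a i.1 ^ j ≤ 1 / (1 - a i.1) := by
      rw [geom_sum_eq h3.ne, le_div_iff₀ (by linarith)]
      have h5 : (a i.1 ^ (N + 1) - 1) / (a i.1 - 1) * (1 - a i.1) = 1 - a i.1 ^ (N + 1) := by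
        have : a i.1 - 1 ≠ 0 := by linarith
        field_simp
        ring
      rw [h5]
      have := pow_nonneg (ha0 i.1) (N + 1)
      linarith
    refine h4.trans ?_
    have h6 : 1 / (1 - a i.1) = a i.1 / (1 - a i.1) + 1 := by
      have : 1 - a i.1 ≠ 0 := by linarith
      field_simp
      ring
    rw [h6]
    refine (Real.add_one_le_exp _).trans (Real.exp_le_exp.2 ?_)
    exact div_le_div_of_nonneg_left (ha0 _) (by linarith) (by linarith [ha1 i.1])
  refine (Finset.prod_le_prod (fun i _ => Finset.sum_nonneg fun j _ => pow_nonneg (ha0 _) _)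
    (fun i _ => h2 i)).trans ?_
  rw [← Real.exp_sum, ← Finset.sum_div]
  refine Real.exp_le_exp.2 (div_le_div_of_nonneg_right ?_ (by linarith))
  rw [Finset.sum_coe_sort F a]
  exact hK F

/-- The weight of a code. -/
def C.wt {L : Type} (wt : L → ℕ) : (j : ℕ) → C L j → ℕ
  | 0, c => wt c
  | j + 1, c => wt c.1 + (c.2.map (fun b => 1 + C.wt wt j b)).sum

/-- Bounded partial sums of `r ^ weight`. -/
def Sub {X : Type} (w : X → ℕ) : Prop :=
  ∀ r : ℝ, 0 < r → r < 1 → ∃ K : ℝ, ∀ T : Finset X, ∑ c ∈ T, r ^ w c ≤ K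

theorem sub_codes {L : Type} (wt : L → ℕ) (hL : Sub wt) (j : ℕ) : Sub (C.wt wt j) := by
  induction j with
  | zero => exact hL
  | succ j ih =>
    intro r h0 h1
    obtain ⟨K, hK⟩ := ih r h0 h1
    obtain ⟨K1, hK1⟩ := hL r h0 h1
    refine ⟨K1 * Real.exp (r * K / (1 - r)), fun T => ?_⟩
    have hb := multiset_bound (fun b : C L j => r ^ (1 + C.wt wt j b)) r (r * K) h1
      (fun _ => by positivity)
      (fun b => by
        rw [pow_add, pow_one]
        exact mul_le_of_le_one_right h0.le (pow_le_one₀ h0.le h1.le))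
      (fun F => by
        have : ∑ i ∈ F, r ^ (1 + C.wt wt j i) = r * ∑ i ∈ F, r ^ C.wt wt j i := by
          rw [Finset.mul_sum]
          refine Finset.sum_congr rfl fun i _ => ?_
          rw [pow_add, pow_one]
        rw [this]
        exact mul_le_mul_of_nonneg_left (hK F) h0.le)
    have hterm : ∀ c : C L (j + 1), r ^ C.wt wt (j + 1) c =
        r ^ wt c.1 * (Multiset.map (fun b : C L j => r ^ (1 + C.wt wt j b)) c.2).prod := by
      intro c
      change r ^ (wt c.1 + (c.2.map (fun b => 1 + C.wt wt j b)).sum) = _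
      rw [pow_add]
      congr 1
      induction c.2 using Multiset.induction_on with
      | empty => simp
      | cons b s ihs =>
        rw [Multiset.map_cons, Multiset.sum_cons, pow_add, ihs, Multiset.map_cons,
          Multiset.prod_cons]
    rw [Finset.sum_congr rfl (fun c _ => hterm c)]
    have hT : ∑ c ∈ T, r ^ wt c.1 *
        (Multiset.map (fun b : C L j => r ^ (1 + C.wt wt j b)) c.2).prod ≤
        ∑ c ∈ (T.image (fun c : C L (j + 1) => c.1)) ×ˢ (T.image (fun c : C L (j + 1) => c.2)),
          r ^ wt c.1 * (Multiset.map (fun b : C L j => r ^ (1 + C.wt wt j b)) c.2).prod := by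
      refine Finset.sum_le_sum_of_subset_of_nonneg (s := T) (fun c hc => ?_) (fun c _ _ => ?_)
      · exact Finset.mem_product.2 ⟨Finset.mem_image_of_mem _ hc, Finset.mem_image_of_mem _ hc⟩
      · refine mul_nonneg (by positivity) (Multiset.prod_nonneg ?_)
        intro y hy
        obtain ⟨b, -, rfl⟩ := Multiset.mem_map.1 hy
        positivity
    refine hT.trans ?_
    have hprod : ∑ c ∈ (T.image (fun c : C L (j + 1) => c.1)) ×ˢ
        (T.image (fun c : C L (j + 1) => c.2)),
          r ^ wt c.1 * (Multiset.map (fun b : C L j => r ^ (1 + C.wt wt j b)) c.2).prod =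
        (∑ x ∈ T.image (fun c : C L (j + 1) => c.1), r ^ wt x) *
          ∑ M ∈ T.image (fun c : C L (j + 1) => c.2),
            (Multiset.map (fun b : C L j => r ^ (1 + C.wt wt j b)) M).prod := by
      rw [Finset.sum_product, Finset.sum_mul_sum]
    rw [hprod]
    refine mul_le_mul (hK1 _) (hb _) (Finset.sum_nonneg fun M _ => Multiset.prod_nonneg ?_) ?_
    · intro y hy
      obtain ⟨b, -, rfl⟩ := Multiset.mem_map.1 hy
      positivity
    · have := hK1 ∅
      rw [Finset.sum_empty] at this
      exact this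

/-- The number of elements of weight at most `d` grows subexponentially. -/
theorem card_le_of_sub {X : Type} (w : X → ℕ) (h : Sub w) (r : ℝ) (h0 : 0 < r) (h1 : r < 1) :
    ∃ K : ℝ, ∀ (T : Finset X) (d : ℕ), (∀ c ∈ T, w c ≤ d) → (T.card : ℝ) * r ^ d ≤ K := by
  obtain ⟨K, hK⟩ := h r h0 h1
  refine ⟨K, fun T d hT => le_trans ?_ (hK T)⟩
  rw [← nsmul_eq_mul, ← Finset.sum_const]
  exact Finset.sum_le_sum fun c hc => pow_le_pow_of_le_one h0.le h1.le (hT c hc)

variable {α L : Type} [Fintype α]

/-- The sum over the vertices of level `m` of the weights of their codes. -/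
theorem sum_children (T : RT α) (m : ℕ) (g : α → ℕ) :
    ∑ v ∈ Finset.univ.filter (fun v => T.lev v = m), ∑ w ∈ Finset.univ.filter (T.P v), g w =
      ∑ w ∈ Finset.univ.filter (fun v => T.lev v = m + 1), g w := by
  rw [Finset.sum_comm' (t' := Finset.univ.filter (fun v => T.lev v = m + 1))
    (s' := fun w => Finset.univ.filter (fun v => T.P v w))]
  · refine Finset.sum_congr rfl fun w hw => ?_
    rw [Finset.mem_filter] at hw
    obtain ⟨v, hv⟩ := T.ex_par w (by omega)
    have : Finset.univ.filter (fun v => T.P v w) = {v} := by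
      ext v'
      rw [Finset.mem_filter, Finset.mem_singleton]
      exact ⟨fun h => T.uniq _ _ _ h.2 hv, fun h => ⟨Finset.mem_univ _, h ▸ hv⟩⟩
    rw [this, Finset.sum_singleton]
  · intro v w
    simp only [Finset.mem_filter, Finset.mem_univ, true_and]
    constructor
    · rintro ⟨h1, h2⟩
      exact ⟨h2, by rw [T.lev_succ v w h2, h1]⟩
    · rintro ⟨h1, h2⟩
      exact ⟨by have := T.lev_succ v w h1; omega, h1⟩

theorem wt_level (T : RT α) (lab : α → L) (wt : L → ℕ) (D j m : ℕ) (hm : m + j = D)
    (hT : ∀ v, T.lev v ≤ D) :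
    ∑ v ∈ Finset.univ.filter (fun v => T.lev v = m), (1 + C.wt wt j (T.code lab j v)) =
      ∑ v ∈ Finset.univ.filter (fun v => m ≤ T.lev v), (1 + wt (lab v)) := by
  induction j generalizing m with
  | zero =>
    have : Finset.univ.filter (fun v => T.lev v = m) =
        Finset.univ.filter (fun v => m ≤ T.lev v) := by
      ext v
      simp only [Finset.mem_filter, Finset.mem_univ, true_and]
      have := hT v
      omega
    rw [this]
    rfl
  | succ j ih =>
    have h1 := ih (m + 1) (by omega)
    have h2 : ∀ v, 1 + C.wt wt (j + 1) (T.code lab (j + 1) v) = (1 + wt (lab v)) +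
        ∑ w ∈ Finset.univ.filter (T.P v), (1 + C.wt wt j (T.code lab j w)) := by
      intro v
      change 1 + (wt (lab v) + (Multiset.map (fun b => 1 + C.wt wt j b)
        ((Finset.univ.filter (T.P v)).val.map (T.code lab j))).sum) = _
      rw [Multiset.map_map, add_assoc]
      rfl
    rw [Finset.sum_congr rfl (fun v _ => h2 v), Finset.sum_add_distrib, sum_children, h1]
    have h3 : Finset.univ.filter (fun v => m ≤ T.lev v) =
        (Finset.univ.filter (fun v => T.lev v = m)) ∪
          Finset.univ.filter (fun v => m + 1 ≤ T.lev v) := by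
      ext v
      simp only [Finset.mem_filter, Finset.mem_univ, true_and, Finset.mem_union]
      omega
    rw [h3, Finset.sum_union]
    rw [Finset.disjoint_left]
    intro v hv hv'
    simp only [Finset.mem_filter, Finset.mem_univ, true_and] at hv hv'
    omega

/-- The weight of the code of a tree. -/
theorem wt_code (T : RT α) (lab : α → L) (wt : L → ℕ) (D : ℕ) (hT : ∀ v, T.lev v ≤ D) :
    1 + C.wt wt D (T.code lab D T.root) = ∑ v, (1 + wt (lab v)) := by
  have h := wt_level T lab wt D D 0 (by omega) hT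
  have h1 : Finset.univ.filter (fun v => T.lev v = 0) = {T.root} := by
    ext v
    rw [Finset.mem_filter, Finset.mem_singleton, T.lev_zero]
    simp
  rw [h1, Finset.sum_singleton] at h
  rw [h]
  simp

end Pool.Agent.Y146.PR
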