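import Mathlib
import Pool.Agent.Y146.PR.Codes
import Pool.Agent.Y146.PR.Bound

/-!
# Subexponential growth of the Chow groups of open unions of strata of bounded diameter
-/

set_option autoImplicit false

open scoped Classical

namespace Pool.Agent.Y146.PR

open Pool.Agent.W526.Prestable

variable {n : ℕ}

/-- The labels: exponent and set of legs. -/
abbrev Lab (n : ℕ) : Type := ℕ × Finset (Fin n)

/-- The label of a vertex. -/
noncomputable def vlab (x : Decorated n) (v : Fin x.k) : Lab n :=
  (x.e v, Finset.univ.filter (fun i => x.leg i = v))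

theorem sub_lab (n : ℕ) : Sub (fun l : Lab n => l.1) := by
  intro r h0 h1
  refine ⟨∑ s : Finset (Fin n), 1 / (1 - r), fun T => ?_⟩
  have h2 : T ⊆ (T.image Prod.fst) ×ˢ (Finset.univ : Finset (Finset (Fin n))) := by
    intro c hc
    exact Finset.mem_product.2 ⟨Finset.mem_image_of_mem _ hc, Finset.mem_univ _⟩
  refine (Finset.sum_le_sum_of_subset_of_nonneg h2 (fun _ _ _ => by positivity)).trans ?_
  rw [Finset.sum_product_right]
  refine Finset.sum_le_sum fun s _ => ?_
  have h3 : Summable (fun j : ℕ => r ^ j) := summable_geometric_of_lt_one h0.le h1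
  have h4 := h3.sum_le_tsum (T.image Prod.fst) (fun _ _ => by positivity)
  rw [tsum_geometric_of_lt_one h0.le h1, ← one_div] at h4
  exact h4

instance (j : ℕ) : Inhabited (C (Lab n) j) := by
  cases j with
  | zero => exact ⟨((0, ∅) : Lab n)⟩
  | succ j => exact ⟨(((0, ∅) : Lab n), 0)⟩

/-- The root of a decorated tree. -/
noncomputable def root (x : Decorated n) (h : x.G.IsTree) : Fin x.k := h.connected.nonempty.some

/-- The rooted tree of a decorated tree. -/
noncomputable def rt (x : Decorated n) (h : x.G.IsTree) : RT (Fin x.k) :=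
  RT.ofTree x.G h (root x h)

/-- The code of a decorated tree. -/
noncomputable def xcode (D : ℕ) (x : Decorated n) : C (Lab n) D :=
  if h : x.G.IsTree then (rt x h).code (vlab x) D (rt x h).root else default

theorem iso_of_xcode (D : ℕ) (x y : Decorated n) (hx : x.G.IsTree) (hy : y.G.IsTree)
    (hxD : ∀ a b, x.G.dist a b ≤ D) (hyD : ∀ a b, y.G.dist a b ≤ D)
    (h : xcode D x = xcode D y) : ∃ f : Fin x.k ≃ Fin y.k, x.IsIso y f := by
  rw [xcode, xcode, dif_pos hx, dif_pos hy] at h
  obtain ⟨f, hf1, hf2⟩ := exists_iso_of_code (rt x hx) (rt y hy) (vlab x) (vlab y) D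
    (fun v => hxD _ _) (fun v => hyD _ _) h.symm
  refine ⟨f, fun a b => ?_, fun i => ?_, fun a => ?_⟩
  · rw [RT.adj_iff y.G hy (root y hy), RT.adj_iff x.G hx (root x hx)]
    exact or_congr (hf1 a b) (hf1 b a)
  · have h1 := congrArg Prod.snd (hf2 (x.leg i))
    have h2 : i ∈ (vlab x (x.leg i)).2 := Finset.mem_filter.2 ⟨Finset.mem_univ _, rfl⟩
    rw [← h1] at h2
    exact (Finset.mem_filter.1 h2).2
  · exact congrArg Prod.fst (hf2 a)

theorem wt_xcode (D : ℕ) (x : Decorated n) (hx : x.G.IsTree) (hxD : ∀ a b, x.G.dist a b ≤ D) :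
    C.wt (fun l : Lab n => l.1) D (xcode D x) ≤ x.codim := by
  have h := wt_code (rt x hx) (vlab x) (fun l : Lab n => l.1) D (fun v => hxD _ _)
  rw [xcode, dif_pos hx, Decorated.codim]
  have h1 : ∑ v, (1 + (fun l : Lab n => l.1) (vlab x v)) = x.k + ∑ v, x.e v := by
    rw [Finset.sum_add_distrib]
    simp [vlab]
  rw [h1] at h
  have h2 : ∑ v, x.e v ≤ ∑ v, (if x.val v = 0 then 2 else 1) * x.e v := by
    refine Finset.sum_le_sum fun v _ => ?_
    split_ifs
    · omega
    · omega
  have h3 : 0 < x.k := Fin.pos (root x hx)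
  omega

variable (U : Set (LegGraph n))

/-- The finite set of codes of the generators. -/
noncomputable def codes (D d : ℕ) : Finset (C (Lab n) D) :=
  ((Finset.univ : Finset (Box n (d + 1) d)).filter (fun b => IsGenerator U d (ofBox b))).image
    (fun b => xcode D (ofBox b))

variable {U}

theorem mem_codes {D d : ℕ} {c : C (Lab n) D} :
    c ∈ codes U D d ↔ ∃ x, IsGenerator U d x ∧ xcode D x = c := by
  rw [codes, Finset.mem_image]
  constructor
  · rintro ⟨b, hb, rfl⟩
    exact ⟨ofBox b, (Finset.mem_filter.1 hb).2, rfl⟩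
  · rintro ⟨x, hx, rfl⟩
    have hk : x.k ≤ d + 1 := by
      have := hx.2.2
      rw [Decorated.codim] at this
      omega
    obtain ⟨b, rfl⟩ := mem_box (N := d + 1) (d := d) x hk hx.2.2.le
    exact ⟨b, Finset.mem_filter.2 ⟨Finset.mem_univ _, hx⟩, rfl⟩

theorem finrank_le_codes (hU : IsOpenUnionOfStrata U) (D : ℕ)
    (hD : ∀ Γ ∈ U, ∀ a b, Γ.G.dist a b ≤ D) (d : ℕ) :
    Module.finrank ℚ (Chow U d) ≤ (codes U D d).card := by
  choose rep hrep1 hrep2 using fun c : codes U D d => mem_codes.1 c.2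
  let φ : (codes U D d →₀ ℚ) →ₗ[ℚ] Chow U d :=
    Finsupp.linearCombination ℚ (fun c => kls U d (rep c))
  have hs : LinearMap.range φ = ⊤ := by
    rw [eq_top_iff]
    rintro z -
    obtain ⟨y, rfl⟩ := Submodule.mkQ_surjective _ z
    induction y using Finsupp.induction_linear with
    | zero => rw [map_zero]; exact Submodule.zero_mem _
    | add f g hf hg => rw [map_add]; exact Submodule.add_mem _ hf hg
    | single x r =>
      have h1 : Finsupp.single x r = r • Finsupp.single x (1 : ℚ) := by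
        rw [Finsupp.smul_single, smul_eq_mul, mul_one]
      rw [h1, map_smul]
      refine Submodule.smul_mem _ _ ?_
      by_cases hx : IsGenerator U d x
      · have hc : xcode D x ∈ codes U D d := mem_codes.2 ⟨x, hx, rfl⟩
        have hr := hrep1 ⟨_, hc⟩
        obtain ⟨f, hf⟩ := iso_of_xcode D x (rep ⟨_, hc⟩) (hU.tree _ hx.1) (hU.tree _ hr.1)
          (hD _ hx.1) (hD _ hr.1) (hrep2 ⟨_, hc⟩).symm
        have h2 := kls_iso (U := U) (d := d) hf hx.2.1 hr.2.1
        rw [kls] at h2
        rw [h2]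
        refine Submodule.smul_mem _ _ ⟨Finsupp.single ⟨_, hc⟩ 1, ?_⟩
        change Finsupp.linearCombination ℚ (fun c => kls U d (rep c)) _ = _
        rw [Finsupp.linearCombination_single, one_smul]
      · have := kls_zero hx
        rw [kls] at this
        rw [this]
        exact Submodule.zero_mem _
  have := LinearMap.finrank_range_le φ
  rw [hs, finrank_top, Module.finrank_finsupp_self, Fintype.card_coe] at this
  exact this

/-- Subexponential growth. -/
theorem finrank_subexp (hU : IsOpenUnionOfStrata U) (D : ℕ)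
    (hD : ∀ Γ ∈ U, ∀ a b, Γ.G.dist a b ≤ D) (r : ℝ) (h0 : 0 < r) (h1 : r < 1) :
    ∃ K : ℝ, ∀ d, (Module.finrank ℚ (Chow U d) : ℝ) * r ^ d ≤ K := by
  obtain ⟨K, hK⟩ := card_le_of_sub _ (sub_codes _ (sub_lab n) D) r h0 h1
  refine ⟨K, fun d => le_trans ?_ (hK (codes U D d) d ?_)⟩
  · refine mul_le_mul_of_nonneg_right ?_ (by positivity)
    exact_mod_cast finrank_le_codes hU D hD d
  · intro c hc
    obtain ⟨x, hx, rfl⟩ := mem_codes.1 hc
    exact (wt_xcode D x (hU.tree _ hx.1) (hD _ hx.1)).trans hx.2.2.le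

/-- The Hilbert series converges in the open unit disc. -/
theorem summable_finrank (hU : IsOpenUnionOfStrata U) (D : ℕ)
    (hD : ∀ Γ ∈ U, ∀ a b, Γ.G.dist a b ≤ D) (r : ℝ) (h0 : 0 < r) (h1 : r < 1) :
    Summable (fun d => (Module.finrank ℚ (Chow U d) : ℝ) * r ^ d) := by
  obtain ⟨s, hs0, hs1⟩ := exists_between h1
  have hs : 0 < s := h0.trans hs0
  obtain ⟨K, hK⟩ := finrank_subexp hU D hD s hs hs1
  have hg : Summable (fun d : ℕ => K * (r / s) ^ d) :=
    (summable_geometric_of_lt_one (by positivity) ((div_lt_one hs).2 hs0)).mul_left K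
  refine Summable.of_nonneg_of_le (fun d => by positivity) (fun d => ?_) hg
  have h2 := hK d
  have h3 : r ^ d = s ^ d * (r / s) ^ d := by
    rw [← mul_pow, mul_div_cancel₀ _ hs.ne']
  rw [h3, ← mul_assoc]
  exact mul_le_mul_of_nonneg_right h2 (by positivity)

end Pool.Agent.Y146.PR
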