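import Mathlib
import Pool.Agent.Y146.PR.Upper
import Pool.Agent.Y146.PR.Trans

/-!
# Superpolynomial growth of the number of partitions; transcendence of the Hilbert series
-/

set_option autoImplicit false

open scoped Classical

namespace Pool.Agent.Y146.PR

open Pool.Agent.W526.Prestable

/-- The multiset with `c i` parts `i + 2`. -/
def bigParts {M T : ℕ} (c : Fin M → Fin (T + 1)) : Multiset ℕ :=
  ∑ i : Fin M, Multiset.replicate (c i).1 (i.1 + 2)

theorem sum_bigParts {M T : ℕ} (c : Fin M → Fin (T + 1)) :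
    (bigParts c).sum ≤ M * (M + 1) * T := by
  rw [bigParts]
  have h1 : (∑ i : Fin M, Multiset.replicate (c i).1 (i.1 + 2)).sum =
      ∑ i : Fin M, (c i).1 * (i.1 + 2) := by
    have := map_sum (Multiset.sumAddMonoidHom (M := ℕ))
      (fun i : Fin M => Multiset.replicate (c i).1 (i.1 + 2)) Finset.univ
    simp only [Multiset.coe_sumAddMonoidHom, Multiset.sum_replicate, smul_eq_mul] at this
    exact this
  rw [h1]
  calc ∑ i : Fin M, (c i).1 * (i.1 + 2) ≤ ∑ _i : Fin M, T * (M + 1) := by
        refine Finset.sum_le_sum fun i _ => ?_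
        exact Nat.mul_le_mul (by omega) (by omega)
    _ = M * (M + 1) * T := by
        rw [Finset.sum_const, Finset.card_univ, Fintype.card_fin, smul_eq_mul]
        ring

theorem count_bigParts {M T : ℕ} (c : Fin M → Fin (T + 1)) (i : Fin M) :
    (bigParts c).count (i.1 + 2) = (c i).1 := by
  rw [bigParts, Multiset.count_sum', Finset.sum_eq_single i]
  · rw [Multiset.count_replicate_self]
  · intro j _ hj
    rw [Multiset.count_replicate, if_neg]
    intro h
    exact hj (Fin.ext (by omega))
  · intro h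
    exact absurd (Finset.mem_univ _) h

theorem pos_bigParts {M T : ℕ} (c : Fin M → Fin (T + 1)) {j : ℕ} (h : j ∈ bigParts c) : 0 < j := by
  rw [bigParts, Multiset.mem_sum] at h
  obtain ⟨i, -, hi⟩ := h
  rw [Multiset.mem_replicate] at hi
  omega

/-- The partition with these big parts and all other parts equal to `1`. -/
def bigPartition {M T : ℕ} (K d : ℕ) (h : K + M * (M + 1) * T ≤ d) (c : Fin M → Fin (T + 1)) :
    PartGE K d :=
  ⟨{ parts := bigParts c + Multiset.replicate (d - (bigParts c).sum) 1
     parts_pos := by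
      intro j hj
      rw [Multiset.mem_add] at hj
      rcases hj with hj | hj
      · exact pos_bigParts c hj
      · rw [Multiset.mem_replicate] at hj
        omega
     parts_sum := by
      have := sum_bigParts c
      rw [Multiset.sum_add, Multiset.sum_replicate, smul_eq_mul, mul_one]
      omega }, by
      have := sum_bigParts c
      change K ≤ (bigParts c + Multiset.replicate (d - (bigParts c).sum) 1).card
      rw [Multiset.card_add, Multiset.card_replicate]
      omega⟩

theorem card_partGE {M T : ℕ} (K d : ℕ) (h : K + M * (M + 1) * T ≤ d) :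
    (T + 1) ^ M ≤ Fintype.card (PartGE K d) := by
  have hinj : Function.Injective (bigPartition (T := T) K d h) := by
    intro c c' hcc
    funext i
    apply Fin.ext
    have h1 : bigParts c + Multiset.replicate (d - (bigParts c).sum) 1 =
        bigParts c' + Multiset.replicate (d - (bigParts c').sum) 1 :=
      congrArg (fun p : PartGE K d => p.1.parts) hcc
    have h2 := congrArg (Multiset.count (i.1 + 2)) h1
    rw [Multiset.count_add, Multiset.count_add, count_bigParts, count_bigParts,
      Multiset.count_replicate, if_neg (by omega), Multiset.count_replicate, if_neg (by omega)]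
      at h2
    omega
  have := Fintype.card_le_of_injective _ hinj
  rwa [Fintype.card_fun, Fintype.card_fin, Fintype.card_fin] at this

/-- A power series whose coefficients are at least the numbers of partitions with at least `K`
parts, and which converges for `|t| < 1`, is not algebraic. -/
theorem transcendental_of_part (K : ℕ) (h : ℕ → ℕ)
    (hsum : ∀ r : ℝ, 0 < r → r < 1 → Summable (fun d => (h d : ℝ) * r ^ d))
    (hlow : ∀ d, Fintype.card (PartGE K d) ≤ h d) :
    Transcendental (Polynomial ℚ) (PowerSeries.mk fun d => (h d : ℚ)) := by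
  refine Trans.transcendental_of_growth h hsum fun s C => ?_
  set B : ℕ := K + (s * (s + 1) + 1) with hB
  obtain ⟨T, hT⟩ := exists_nat_gt (2 * |C| * (B : ℝ) ^ s + |C| + 1)
  set N : ℕ := K + (s * (s + 1) + 1) * T with hN
  have hTN : (T : ℝ) ≤ N := by
    have : T ≤ N := by
      rw [hN]
      nlinarith [Nat.zero_le (s * (s + 1) * T)]
    exact_mod_cast this
  have hNB : (N : ℝ) ≤ B * (T + 1) := by
    have : N ≤ B * (T + 1) := by
      rw [hN, hB]
      nlinarith [Nat.zero_le (K * T), Nat.zero_le (s * (s + 1))]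
    exact_mod_cast this
  have hC0 : 0 ≤ |C| := abs_nonneg C
  have hBs : (0 : ℝ) ≤ (B : ℝ) ^ s := by positivity
  have hCB : 0 ≤ 2 * |C| * (B : ℝ) ^ s := by positivity
  have hN1 : (1 : ℝ) ≤ N := by linarith
  have hNpos : (0 : ℝ) < N := by linarith
  refine ⟨N, hN1, by linarith [le_abs_self C], ?_⟩
  set r : ℝ := 1 - 1 / (4 * N) with hr
  have hu0 : 0 < 1 / (4 * (N : ℝ)) := by positivity
  have hu1 : 1 / (4 * (N : ℝ)) ≤ 1 / 4 := by
    rw [div_le_div_iff₀ (by positivity) (by norm_num)]
    linarith
  have hr0 : 0 < r := by linarith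
  have hr1 : r < 1 := by linarith
  have h1 : ∑ d ∈ Finset.Ico N (2 * N), (h d : ℝ) * r ^ d ≤ ∑' d, (h d : ℝ) * r ^ d :=
    (hsum r hr0 hr1).sum_le_tsum _ (fun d _ => by positivity)
  have hr2 : 1 / 2 ≤ r ^ (2 * N) := by
    have := one_add_mul_le_pow (a := -(1 / (4 * (N : ℝ)))) (by linarith) (2 * N)
    have h3 : 1 + ((2 * N : ℕ) : ℝ) * -(1 / (4 * (N : ℝ))) = 1 / 2 := by
      push_cast
      field_simp
      ring
    rw [h3] at this
    rw [hr, sub_eq_add_neg]
    exact this
  have h2 : (N : ℝ) * ((T + 1 : ℝ) ^ s * (1 / 2)) ≤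
      ∑ d ∈ Finset.Ico N (2 * N), (h d : ℝ) * r ^ d := by
    have h4 : ∑ _d ∈ Finset.Ico N (2 * N), ((T + 1 : ℝ) ^ s * (1 / 2)) =
        (N : ℝ) * ((T + 1 : ℝ) ^ s * (1 / 2)) := by
      rw [Finset.sum_const, Nat.card_Ico, nsmul_eq_mul]
      congr 2
      omega
    rw [← h4]
    refine Finset.sum_le_sum fun d hd => ?_
    rw [Finset.mem_Ico] at hd
    have h5 : (T + 1) ^ s ≤ h d := by
      refine le_trans (card_partGE (M := s) (T := T) K d ?_) (hlow d)
      have : K + s * (s + 1) * T ≤ N := by
        rw [hN]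
        nlinarith [Nat.zero_le T]
      omega
    have h6 : ((T + 1 : ℝ)) ^ s ≤ (h d : ℝ) := by exact_mod_cast h5
    have h7 : (1 : ℝ) / 2 ≤ r ^ d :=
      hr2.trans (pow_le_pow_of_le_one hr0.le hr1.le (by omega))
    exact mul_le_mul h6 h7 (by norm_num) (by positivity)
  refine lt_of_lt_of_le ?_ (h2.trans h1)
  have h8 : C * (N : ℝ) ^ s ≤ |C| * ((B : ℝ) ^ s * (T + 1 : ℝ) ^ s) := by
    rw [← mul_pow]
    refine (mul_le_mul_of_nonneg_right (le_abs_self C) (by positivity)).trans ?_
    refine mul_le_mul_of_nonneg_left ?_ hC0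
    exact pow_le_pow_left₀ hNpos.le hNB s
  refine lt_of_le_of_lt h8 ?_
  have hTs : (0 : ℝ) < (T + 1 : ℝ) ^ s := by positivity
  have h9 : |C| * (B : ℝ) ^ s < N * (1 / 2) := by linarith
  calc |C| * ((B : ℝ) ^ s * (T + 1 : ℝ) ^ s) = (|C| * (B : ℝ) ^ s) * (T + 1 : ℝ) ^ s := by ring
    _ < (N * (1 / 2)) * (T + 1 : ℝ) ^ s := mul_lt_mul_of_pos_right h9 hTs
    _ = (N : ℝ) * ((T + 1 : ℝ) ^ s * (1 / 2)) := by ring

variable {n : ℕ}

/-- The stars with at most `K` vertices. -/
def smallStars (n K : ℕ) : Set (LegGraph n) := {Γ | Γ ∈ starLocus n ∧ Γ.k ≤ K}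

theorem isOpen_smallStars (n K : ℕ) : IsOpenUnionOfStrata (smallStars n K) where
  tree := fun Γ h => (isOpen_star n).tree Γ h.1
  generize := by
    rintro Γ ⟨h, hk⟩ Γ' hc
    refine ⟨(isOpen_star n).generize Γ h Γ' hc, ?_⟩
    obtain ⟨f, hf, -⟩ := hc
    have := Fintype.card_le_of_surjective f hf
    rw [Fintype.card_fin, Fintype.card_fin] at this
    omega

/-- The dimension of the Chow groups of a union with the star locus. -/
theorem finrank_union {V : Set (LegGraph n)} {K : ℕ} (hK : 3 ≤ n + K)
    (hV : IsOpenUnionOfStrata V) (hS : ∀ Γ ∈ starLocus n, Γ ∈ V ↔ Γ.k ≤ K) (d : ℕ) :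
    Module.finrank ℚ (Chow (V ∪ starLocus n) d) =
      Module.finrank ℚ (Chow V d) + Fintype.card (PartGE K d) := by
  have := chow_finite V d
  rw [(unionEquiv hK hV hS d).finrank_eq, Module.finrank_prod, Module.finrank_finsupp_self]

theorem chow_mono {V U : Set (LegGraph n)} (h : V ⊆ U) (d : ℕ) :
    Module.finrank ℚ (Chow V d) ≤ Module.finrank ℚ (Chow U d) := by
  have := chow_finite U d
  let φ : Chow U d →ₗ[ℚ] Chow V d := (relations U d).liftQ (relations V d).mkQ (by
    rw [Submodule.ker_mkQ]
    exact relations_mono h d)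
  have hφ : LinearMap.range φ = ⊤ := by
    rw [Submodule.range_liftQ, Submodule.range_mkQ]
  have := LinearMap.finrank_range_le φ
  rwa [hφ, finrank_top] at this

/-- Lower bound for open unions of strata containing the star locus. -/
theorem part_le_finrank {U : Set (LegGraph n)} (h : starLocus n ⊆ U) (d : ℕ) :
    Fintype.card (PartGE 3 d) ≤ Module.finrank ℚ (Chow U d) := by
  refine le_trans ?_ (chow_mono h d)
  have h1 := finrank_union (n := n) (K := 3) (by omega) (isOpen_smallStars n 3)
    (fun Γ hΓ => ⟨fun h => h.2, fun h => ⟨hΓ, h⟩⟩) d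
  have h2 : smallStars n 3 ∪ starLocus n = starLocus n :=
    Set.union_eq_self_of_subset_left fun Γ h => h.1
  rw [h2] at h1
  omega

/-- The Hilbert series of an open union of strata of bounded diameter which contains the star locus
is not algebraic. -/
theorem transcendental_of_star {U : Set (LegGraph n)} (hU : IsOpenUnionOfStrata U) (D : ℕ)
    (hD : ∀ Γ ∈ U, ∀ a b, Γ.G.dist a b ≤ D) (h : starLocus n ⊆ U) :
    Transcendental (Polynomial ℚ) (hilbertSeries U) :=
  transcendental_of_part 3 (fun d => Module.finrank ℚ (Chow U d))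
    (fun r h0 h1 => summable_finrank hU D hD r h0 h1) (fun d => part_le_finrank h d)

theorem not_rational_of_transcendental {H : PowerSeries ℚ}
    (h : Transcendental (Polynomial ℚ) H) : ¬ IsRational H := by
  rintro ⟨p, q, hq, hpq⟩
  rw [transcendental_iff] at h
  have h1 := h (Polynomial.C q * Polynomial.X - Polynomial.C p) (by
    rw [map_sub, map_mul, Polynomial.aeval_X, Polynomial.aeval_C, Polynomial.aeval_C,
      PowerSeries.algebraMap_apply', PowerSeries.algebraMap_apply']
    simp only [Algebra.algebraMap_self, PowerSeries.map_id, id_eq]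
    rw [hpq, sub_self])
  have h2 := congrArg (fun F => Polynomial.coeff F 1) h1
  simp at h2
  exact hq h2

end Pool.Agent.Y146.PR
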