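import Mathlib
import Pool.Agent.Y146.PR.Growth

/-!
# An open union of strata of infinite type and bounded diameter contains the star locus
-/

set_option autoImplicit false

open scoped Classical

namespace Pool.Agent.Y146.PR

open Pool.Agent.W526.Prestable

variable {n : ℕ}

section tree

variable {α : Type} (T : RT α)

/-- The parent. -/
noncomputable def par (v : α) : α := if h : T.lev v ≠ 0 then (T.ex_par v h).choose else v

theorem par_eq {v w : α} (h : T.P v w) : par T w = v := by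
  have h0 : T.lev w ≠ 0 := by
    have := T.lev_succ v w h
    omega
  rw [par, dif_pos h0]
  exact T.uniq _ _ w (T.ex_par w h0).choose_spec h

variable [Fintype α]

/-- Vertices without children. -/
noncomputable def tips : Finset α := Finset.univ.filter (fun v => ∀ w, ¬ T.P v w)

theorem mem_tips {v : α} : v ∈ tips T ↔ ∀ w, ¬ T.P v w := by
  rw [tips, Finset.mem_filter]
  exact ⟨fun h => h.2, fun h => ⟨Finset.mem_univ _, h⟩⟩

theorem exists_tip (D : ℕ) (hD : ∀ v, T.lev v ≤ D) (m : ℕ) : ∀ v, D - T.lev v ≤ m →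
    ∃ ℓ ∈ tips T, ∃ i, (par T)^[i] ℓ = v ∧ T.lev ℓ = T.lev v + i := by
  induction m with
  | zero =>
    intro v hv
    refine ⟨v, (mem_tips T).2 fun w hw => ?_, 0, rfl, rfl⟩
    have := T.lev_succ v w hw
    have := hD w
    omega
  | succ m ih =>
    intro v hv
    by_cases h : ∃ w, T.P v w
    · obtain ⟨w, hw⟩ := h
      have h1 := T.lev_succ v w hw
      have h2 := hD w
      obtain ⟨ℓ, hℓ, i, hi, hl⟩ := ih w (by omega)
      refine ⟨ℓ, hℓ, i + 1, ?_, by omega⟩
      rw [Function.iterate_succ_apply', hi, par_eq T hw]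
    · exact ⟨v, (mem_tips T).2 fun w hw => h ⟨w, hw⟩, 0, rfl, rfl⟩

theorem card_le_tips (D : ℕ) (hD : ∀ v, T.lev v ≤ D) :
    Fintype.card α ≤ (tips T).card * (D + 1) := by
  have hs : Function.Surjective (fun p : tips T × Fin (D + 1) => (par T)^[p.2.1] p.1.1) := by
    intro v
    obtain ⟨ℓ, hℓ, i, hi, hl⟩ := exists_tip T D hD D v (Nat.sub_le _ _)
    have := hD ℓ
    exact ⟨(⟨ℓ, hℓ⟩, ⟨i, by omega⟩), hi⟩
  have := Fintype.card_le_of_surjective _ hs
  rwa [Fintype.card_prod, Fintype.card_coe, Fintype.card_fin] at this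

end tree

/-- The good tips: no legs, not the root. -/
noncomputable def good (Γ : LegGraph n) (T : RT (Fin Γ.k)) : Finset (Fin Γ.k) :=
  ((tips T).erase T.root) \ Finset.univ.image Γ.leg

theorem mem_good (Γ : LegGraph n) (T : RT (Fin Γ.k)) (v : Fin Γ.k) : v ∈ good Γ T ↔
    v ≠ T.root ∧ (∀ w, ¬ T.P v w) ∧ ∀ i, Γ.leg i ≠ v := by
  rw [good, Finset.mem_sdiff, Finset.mem_erase, mem_tips, Finset.mem_image]
  constructor
  · rintro ⟨⟨h1, h2⟩, h3⟩
    exact ⟨h1, h2, fun i hi => h3 ⟨i, Finset.mem_univ _, hi⟩⟩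
  · rintro ⟨h1, h2, h3⟩
    exact ⟨⟨h1, h2⟩, fun ⟨i, _, hi⟩ => h3 i hi⟩

theorem card_good (Γ : LegGraph n) (T : RT (Fin Γ.k)) : (tips T).card ≤ (good Γ T).card + 1 + n := by
  have h1 : (tips T).card - 1 ≤ ((tips T).erase T.root).card := Finset.pred_card_le_card_erase
  have h2 := Finset.le_card_sdiff (Finset.univ.image Γ.leg) ((tips T).erase T.root)
  have h3 : (Finset.univ.image Γ.leg).card ≤ n := by
    refine Finset.card_image_le.trans ?_
    rw [Finset.card_univ, Fintype.card_fin]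
  rw [good]
  omega

theorem contracts_star (Γ Γ' : LegGraph n) (hG : Γ.G.IsTree) (ρ : Fin Γ.k) (c' : Fin Γ'.k)
    (hc' : IsCenter Γ' c')
    (hcard : Γ'.k ≤ (good Γ (RT.ofTree Γ.G hG ρ)).card) : Γ.Contracts Γ' := by
  set T := RT.ofTree Γ.G hG ρ with hT
  have hle : Fintype.card {t : Fin Γ'.k // t ≠ c'} ≤ Fintype.card (good Γ T) := by
    rw [Fintype.card_coe]
    refine le_trans (Fintype.card_subtype_le _) ?_
    rw [Fintype.card_fin]
    exact hcard
  obtain ⟨e⟩ := Function.Embedding.nonempty_of_card_le hle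
  let f : Fin Γ.k → Fin Γ'.k := fun v => if h : ∃ t, (e t).1 = v then h.choose.1 else c'
  have hf1 : ∀ t, f (e t).1 = t.1 := by
    intro t
    have h : ∃ t', (e t').1 = (e t).1 := ⟨t, rfl⟩
    have h1 : f (e t).1 = h.choose.1 := dif_pos h
    rw [h1]
    exact congrArg Subtype.val (e.injective (Subtype.ext h.choose_spec))
  have hf2 : ∀ v, f v ≠ c' → v ∈ good Γ T ∧ ∀ w, f w = f v → w = v := by
    intro v hv
    by_cases h : ∃ t, (e t).1 = v
    · obtain ⟨t, rfl⟩ := h
      refine ⟨(e t).2, fun w hw => ?_⟩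
      rw [hf1] at hw hv
      by_cases h' : ∃ t, (e t).1 = w
      · obtain ⟨t', rfl⟩ := h'
        rw [hf1] at hw
        rw [Subtype.ext hw]
      · have : f w = c' := dif_neg h'
        rw [this] at hw
        exact absurd hw.symm hv
    · exact absurd (dif_neg h) hv
  have hf3 : ∀ v w, T.P v w → f v = c' := by
    intro v w hP
    by_contra hne
    exact ((mem_good Γ T v).1 (hf2 v hne).1).2.1 w hP
  have hroot : f T.root = c' := by
    by_contra hne
    exact ((mem_good Γ T _).1 (hf2 _ hne).1).1 rfl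
  have htail : ∀ d, d ≠ c' → ∃ a b, f a = c' ∧ f b = d ∧ Γ.G.Adj a b := by
    intro d hd
    have h1 := (mem_good Γ T _).1 (e ⟨d, hd⟩).2
    have h2 : T.lev (e ⟨d, hd⟩).1 ≠ 0 := fun h => h1.1 ((T.lev_zero _).1 h)
    obtain ⟨u, hu⟩ := T.ex_par _ h2
    exact ⟨u, (e ⟨d, hd⟩).1, hf3 _ _ hu, hf1 _, (RT.adj_iff Γ.G hG ρ _ _).2 (Or.inl hu)⟩
  refine ⟨f, ?_, ?_, ?_, ?_⟩
  · intro d
    by_cases hd : d = c'
    · exact ⟨T.root, by rw [hroot, hd]⟩
    · exact ⟨(e ⟨d, hd⟩).1, hf1 ⟨d, hd⟩⟩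
  · intro c
    by_cases hc : c = c'
    · subst hc
      have key : ∀ m, ∀ v (hv : f v = c), T.lev v = m →
          (Γ.G.induce {a | f a = c}).Reachable ⟨v, hv⟩ ⟨T.root, hroot⟩ := by
        intro m
        induction m with
        | zero =>
          intro v hv hl
          have : v = T.root := (T.lev_zero v).1 hl
          subst this
          exact SimpleGraph.Reachable.refl _
        | succ m ih =>
          intro v hv hl
          obtain ⟨u, hu⟩ := T.ex_par v (by omega)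
          have hlu := T.lev_succ u v hu
          have hfu := hf3 u v hu
          refine SimpleGraph.Reachable.trans (v := ⟨u, hfu⟩) (SimpleGraph.Adj.reachable ?_)
            (ih u hfu (by omega))
          exact (RT.adj_iff Γ.G hG ρ v u).2 (Or.inr hu)
      intro a b
      exact (key _ a.1 a.2 rfl).trans (key _ b.1 b.2 rfl).symm
    · intro a b
      have ha : f a.1 ≠ c' := by rw [a.2]; exact hc
      have : b = a := Subtype.ext ((hf2 a.1 ha).2 b.1 (by rw [a.2, b.2]))
      rw [this]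
  · intro c d
    rw [hc'.2]
    refine and_congr_right fun hcd => ⟨?_, ?_⟩
    · rintro (rfl | rfl)
      · obtain ⟨a, b, ha, hb, hab⟩ := htail d (Ne.symm hcd)
        exact ⟨a, b, ha, hb, hab⟩
      · obtain ⟨a, b, ha, hb, hab⟩ := htail c hcd
        exact ⟨b, a, hb, ha, hab.symm⟩
    · rintro ⟨a, b, rfl, rfl, hab⟩
      rcases (RT.adj_iff Γ.G hG ρ a b).1 hab with h | h
      · exact Or.inl (hf3 a b h)
      · exact Or.inr (hf3 b a h)
  · intro i
    rw [hc'.1]
    by_contra hne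
    exact ((mem_good Γ T _).1 (hf2 _ (Ne.symm hne)).1).2.2 i rfl

/-- An open union of strata of infinite type and bounded diameter contains the star locus. -/
theorem star_subset {U : Set (LegGraph n)} (hU : IsOpenUnionOfStrata U) (D : ℕ)
    (hD : ∀ Γ ∈ U, ∀ a b, Γ.G.dist a b ≤ D) (hinf : ∀ N, ∃ Γ ∈ U, N ≤ Γ.k) :
    starLocus n ⊆ U := by
  intro Γ' hΓ'
  obtain ⟨c', hc'⟩ := hΓ'
  obtain ⟨Γ, hΓ, hk⟩ := hinf ((Γ'.k + n + 1) * (D + 1) + 1)
  have hG := hU.tree Γ hΓ
  have ρ : Fin Γ.k := hG.connected.nonempty.some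
  refine hU.generize Γ hΓ Γ' (contracts_star Γ Γ' hG ρ c' hc' ?_)
  have h1 := card_le_tips (RT.ofTree Γ.G hG ρ) D (fun v => hD Γ hΓ _ _)
  have h2 := card_good Γ (RT.ofTree Γ.G hG ρ)
  rw [Fintype.card_fin] at h1
  have h3 : (Γ'.k + n + 1) * (D + 1) < (tips (RT.ofTree Γ.G hG ρ)).card * (D + 1) := by omega
  have h4 : Γ'.k + n + 1 < (tips (RT.ofTree Γ.G hG ρ)).card := lt_of_mul_lt_mul_right h3 (by omega)
  omega

end Pool.Agent.Y146.PR
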